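import Pool.Agent.V7H75.EX.Cyl

set_option autoImplicit false

namespace Pool.Agent.V7H75.EX

open Encodable MeasureTheory
open scoped ENNReal
open Pool.Agent.Helper227 (S1 lam allStr)

/-- the string `0^k 1` -/
def u (k : ℕ) : List Bool := (List.range k).map (fun _ => false) ++ [true]

/-- the number of ones -/
def ones (l : List Bool) : ℕ := (l.filter fun b => decide (b = true)).length

/-- `w` is a valid entry for `k` in `σ` -/
def valid (σ : List Bool) (k : ℕ) (w : List Bool) : Prop :=
  u k <+: w ∧ σ[encode w]? = some true ∧ ones (σ.take (encode w)) + k + 4 ≤ w.length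

theorem primrec_u : Primrec u := by
  unfold u
  exact Primrec.list_append.comp (Primrec.list_map Primrec.list_range
    (Primrec.const false).to₂) (Primrec.const [true])

theorem primrec_ones : Primrec ones := by
  unfold ones
  exact Primrec.list_length.comp (Primrec.listFilter (p := fun b : Bool => b = true)
    (Primrec.eq.comp Primrec.id (Primrec.const true)))

theorem primrec_valid : PrimrecPred fun x : List Bool × ℕ × List Bool => valid x.1 x.2.1 x.2.2 := by
  unfold valid
  have e1 : Primrec fun x : List Bool × ℕ × List Bool => x.2.1 := Primrec.fst.comp Primrec.snd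
  have e2 : Primrec fun x : List Bool × ℕ × List Bool => x.2.2 := Primrec.snd.comp Primrec.snd
  refine PrimrecPred.and ?_ (PrimrecPred.and ?_ ?_)
  · exact primrec_prefix.comp (primrec_u.comp e1) e2
  · exact Primrec.eq.comp (Primrec.list_getElem?.comp Primrec.fst (Primrec.encode.comp e2))
      (Primrec.const (some true))
  · refine Primrec.nat_le.comp ?_ (Primrec.list_length.comp e2)
    exact Primrec.nat_add.comp (Primrec.nat_add.comp (primrec_ones.comp
      (Primrec.list_take.comp (Primrec.encode.comp e2) Primrec.fst)) e1) (Primrec.const 4)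

/-! ### The two families of Sigma-one events -/

/-- the value of the `k`-th function at a string -/
def Val (k : ℕ) (x : List Bool) (v : ℕ) : Prop :=
  v ∈ (Denumerable.ofNat Nat.Partrec.Code k).eval (encode x)

theorem s1_val : S1 fun x : ℕ × List Bool × ℕ => Val x.1 x.2.1 x.2.2 := by
  refine ⟨fun x n => (Denumerable.ofNat Nat.Partrec.Code x.1).evaln n (encode x.2.1) =
    some x.2.2, ?_, ?_, ?_⟩
  · have h : Primrec fun x : (ℕ × List Bool × ℕ) × ℕ =>
        (Denumerable.ofNat Nat.Partrec.Code x.1.1).evaln x.2 (encode x.1.2.1) :=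
      Nat.Partrec.Code.primrec_evaln.comp ((Primrec.snd.pair
        ((Primrec.ofNat Nat.Partrec.Code).comp (Primrec.fst.comp Primrec.fst))).pair
          (Primrec.encode.comp (Primrec.fst.comp (Primrec.snd.comp Primrec.fst))))
    exact Primrec.eq.comp h (Primrec.option_some.comp (Primrec.snd.comp (Primrec.snd.comp
      Primrec.fst)))
  · intro x m n h hm
    exact Nat.Partrec.Code.evaln_mono h hm
  · intro x
    exact Nat.Partrec.Code.evaln_complete

/-- the bad event of a candidate `(w, e, n, k)`: leaving `[w]` or a value other than `e` at a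
prefix of length at least `n` -/
def Pr (c : List Bool × ℕ × ℕ × ℕ) (x : List Bool) : Prop :=
  (c.1.length ≤ x.length ∧ ¬ c.1 <+: x) ∨
    (c.2.2.1 ≤ x.length ∧ ∃ v, v ≠ c.2.1 ∧ Val c.2.2.2 x v)

theorem s1_pr : S1 fun x : (List Bool × ℕ × ℕ × ℕ) × List Bool => Pr x.1 x.2 := by
  unfold Pr
  refine S1.or (S1.of_prim (PrimrecPred.and ?_ (PrimrecPred.not ?_)))
    (S1.and (S1.of_prim ?_) (S1.ex (p := fun (x : (List Bool × ℕ × ℕ × ℕ) × List Bool) (v : ℕ) =>
      v ≠ x.1.2.1 ∧ Val x.1.2.2.2 x.2 v) (S1.and (p := fun x :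
        ((List Bool × ℕ × ℕ × ℕ) × List Bool) × ℕ => x.2 ≠ x.1.1.2.1)
        (q := fun x : ((List Bool × ℕ × ℕ × ℕ) × List Bool) × ℕ => Val x.1.1.2.2.2 x.1.2 x.2)
        (S1.of_prim (PrimrecPred.not ?_)) ?_)))
  · exact Primrec.nat_le.comp (Primrec.list_length.comp (Primrec.fst.comp Primrec.fst))
      (Primrec.list_length.comp Primrec.snd)
  · exact primrec_prefix.comp (Primrec.fst.comp Primrec.fst) Primrec.snd
  · exact Primrec.nat_le.comp (Primrec.fst.comp (Primrec.snd.comp (Primrec.snd.comp
      Primrec.fst))) (Primrec.list_length.comp Primrec.snd)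
  · exact Primrec.eq.comp Primrec.snd (Primrec.fst.comp (Primrec.snd.comp (Primrec.fst.comp
      Primrec.fst)))
  · refine s1_val.comp (f := fun x : ((List Bool × ℕ × ℕ × ℕ) × List Bool) × ℕ =>
      (x.1.1.2.2.2, x.1.2, x.2)) ?_
    exact (Primrec.snd.comp (Primrec.snd.comp (Primrec.snd.comp (Primrec.fst.comp
      Primrec.fst)))).pair ((Primrec.snd.comp Primrec.fst).pair Primrec.snd)

/-- the candidate is refuted: the bad event has measure greater than `1 - 4 ^ (-|w|)` -/
def R (c : List Bool × ℕ × ℕ × ℕ) : Prop :=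
  ((4 ^ c.1.length - 1 : ℕ) : ℝ≥0∞) / ((4 ^ c.1.length : ℕ) : ℝ≥0∞) <
    lam {X | ∃ t, Pr c (Helper227.pre X t)}

theorem s1_R : S1 R := by
  have h4 : Primrec fun c : List Bool × ℕ × ℕ × ℕ => 4 ^ c.1.length :=
    Helper227.primrec_pow.comp (Primrec.const 4) (Primrec.list_length.comp Primrec.fst)
  exact Helper227.s1_measure_gt (P := Pr) s1_pr
    (a := fun c => 4 ^ c.1.length - 1) (b := fun c => 4 ^ c.1.length)
    (Primrec.nat_sub.comp h4 (Primrec.const 1)) h4 (fun _ => by positivity)

/-- the `i`-th c.e. set of strings -/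
def P (x : ℕ × List Bool) : Prop := ∃ v, Val x.1 x.2 v

theorem s1_P : S1 P := by
  refine S1.ex (p := fun (x : ℕ × List Bool) v => Val x.1 x.2 v) ?_
  exact s1_val.comp (f := fun x : (ℕ × List Bool) × ℕ => (x.1.1, x.1.2, x.2))
    ((Primrec.fst.comp Primrec.fst).pair ((Primrec.snd.comp Primrec.fst).pair Primrec.snd))

noncomputable def qK : List Bool × ℕ × ℕ × ℕ → ℕ → Prop := s1_R.choose

theorem qK_prim : PrimrecRel qK := s1_R.choose_spec.1

theorem qK_mono (c : List Bool × ℕ × ℕ × ℕ) {m n : ℕ} (h : m ≤ n) (hc : qK c m) : qK c n :=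
  s1_R.choose_spec.2.1 c m n h hc

theorem qK_iff (c : List Bool × ℕ × ℕ × ℕ) : R c ↔ ∃ n, qK c n := s1_R.choose_spec.2.2 c

noncomputable def qG : ℕ × List Bool → ℕ → Prop := s1_P.choose

theorem qG_prim : PrimrecRel qG := s1_P.choose_spec.1

theorem qG_mono (c : ℕ × List Bool) {m n : ℕ} (h : m ≤ n) (hc : qG c m) : qG c n :=
  s1_P.choose_spec.2.1 c m n h hc

theorem qG_iff (c : ℕ × List Bool) : P c ↔ ∃ n, qG c n := s1_P.choose_spec.2.2 c

/-! ### Selections -/

open Classical in
/-- selection of an extension in the `i`-th c.e. set, at stage `t` -/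
noncomputable def selG (x : ℕ × List Bool × ℕ) : Option (List Bool) :=
  ((List.range (x.2.2 + 1)).filterMap fun c => (decode (α := List Bool) c).bind fun τ =>
    if x.2.1 <+: τ ∧ qG (x.1, τ) x.2.2 then some τ else none).head?

theorem primrec_selG : Primrec selG := by
  classical
  unfold selG
  refine Primrec.list_head?.comp (Primrec.listFilterMap (Primrec.list_range.comp
    (Primrec.succ.comp (Primrec.snd.comp Primrec.snd))) ?_)
  refine Primrec.option_bind (Primrec.decode.comp Primrec.snd) ?_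
  refine Primrec.ite (PrimrecPred.and ?_ ?_) (Primrec.option_some.comp Primrec.snd)
    (Primrec.const none)
  · exact primrec_prefix.comp (Primrec.fst.comp (Primrec.snd.comp (Primrec.fst.comp
      Primrec.fst))) Primrec.snd
  · exact qG_prim.comp ((Primrec.fst.comp (Primrec.fst.comp Primrec.fst)).pair Primrec.snd)
      (Primrec.snd.comp (Primrec.snd.comp (Primrec.fst.comp Primrec.fst)))

/-- length of the candidate strings -/
def len (k N : ℕ) (σ : List Bool) : ℕ := σ.length + k + 2 * N + 10

/-- the candidates `(w, w', e, n)` -/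
def cands (x : ℕ × ℕ × List Bool) : List (List Bool × List Bool × ℕ × ℕ) :=
  (allStr (len x.1 x.2.1 x.2.2)).flatMap fun w => (allStr (len x.1 x.2.1 x.2.2)).flatMap fun w' =>
    (List.range (x.2.1 + 1)).flatMap fun e => (List.range (x.2.1 + 1)).map fun n => (w, w', e, n)

theorem mem_cands {k N : ℕ} {σ w w' : List Bool} {e n : ℕ} :
    (w, w', e, n) ∈ cands (k, N, σ) ↔
      w.length = len k N σ ∧ w'.length = len k N σ ∧ e ≤ N ∧ n ≤ N := by
  unfold cands
  simp only [List.mem_flatMap, List.mem_map, List.mem_range, Helper227.mem_allStr, Prod.mk.injEq]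
  constructor
  · rintro ⟨a, ha, b, hb, c, hc, d, hd, rfl, rfl, rfl, rfl⟩
    exact ⟨ha, hb, by omega, by omega⟩
  · rintro ⟨h1, h2, h3, h4⟩
    exact ⟨w, h1, w', h2, e, by omega, n, by omega, rfl, rfl, rfl, rfl⟩

theorem primrec_cands : Primrec cands := by
  unfold cands
  have hlen : Primrec fun x : ℕ × ℕ × List Bool => allStr (len x.1 x.2.1 x.2.2) := by
    unfold len
    refine Helper227.primrec_allStr.comp (Primrec.nat_add.comp (Primrec.nat_add.comp
      (Primrec.nat_add.comp ?_ Primrec.fst) ?_) (Primrec.const 10))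
    · exact Primrec.list_length.comp (Primrec.snd.comp Primrec.snd)
    · exact Primrec.nat_mul.comp (Primrec.const 2) (Primrec.fst.comp Primrec.snd)
  refine Primrec.list_flatMap hlen ?_
  refine Primrec.list_flatMap (hlen.comp Primrec.fst) ?_
  refine Primrec.list_flatMap (Primrec.list_range.comp (Primrec.succ.comp
    (Primrec.fst.comp (Primrec.snd.comp (Primrec.fst.comp Primrec.fst))))) ?_
  refine Primrec.list_map (Primrec.list_range.comp (Primrec.succ.comp
    (Primrec.fst.comp (Primrec.snd.comp (Primrec.fst.comp (Primrec.fst.comp Primrec.fst)))))) ?_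
  exact (Primrec.snd.comp (Primrec.fst.comp (Primrec.fst.comp Primrec.fst))).pair
    ((Primrec.snd.comp (Primrec.fst.comp Primrec.fst)).pair
      ((Primrec.snd.comp Primrec.fst).pair Primrec.snd))

/-- decidable side conditions of a candidate -/
def condK (k : ℕ) (σ : List Bool) (c : List Bool × List Bool × ℕ × ℕ) : Prop :=
  u k <+: c.1 ∧ u k <+: c.2.1 ∧ encode c.1 < encode c.2.1 ∧
    (∀ j < c.1.length + 1, ¬ valid σ k (c.1.take j)) ∧
    (∀ j < c.2.1.length + 1, ¬ valid σ k (c.2.1.take j))

theorem primrec_condK : PrimrecPred fun x : (ℕ × List Bool) × (List Bool × List Bool × ℕ × ℕ) =>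
    condK x.1.1 x.1.2 x.2 := by
  unfold condK
  have e1 : Primrec fun x : (ℕ × List Bool) × (List Bool × List Bool × ℕ × ℕ) => x.1.1 :=
    Primrec.fst.comp Primrec.fst
  have e2 : Primrec fun x : (ℕ × List Bool) × (List Bool × List Bool × ℕ × ℕ) => x.1.2 :=
    Primrec.snd.comp Primrec.fst
  have e3 : Primrec fun x : (ℕ × List Bool) × (List Bool × List Bool × ℕ × ℕ) => x.2.1 :=
    Primrec.fst.comp Primrec.snd
  have e4 : Primrec fun x : (ℕ × List Bool) × (List Bool × List Bool × ℕ × ℕ) => x.2.2.1 :=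
    Primrec.fst.comp (Primrec.snd.comp Primrec.snd)
  refine PrimrecPred.and ?_ (PrimrecPred.and ?_ (PrimrecPred.and ?_ (PrimrecPred.and ?_ ?_)))
  · exact primrec_prefix.comp (primrec_u.comp e1) e3
  · exact primrec_prefix.comp (primrec_u.comp e1) e4
  · exact Primrec.nat_lt.comp (Primrec.encode.comp e3) (Primrec.encode.comp e4)
  · refine Helper227.PP.all_lt (f := fun x : (ℕ × List Bool) × (List Bool × List Bool × ℕ × ℕ) =>
      x.2.1.length + 1) (p := fun x j => ¬ valid x.1.2 x.1.1 (x.2.1.take j)) ?_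
      (Primrec.succ.comp (Primrec.list_length.comp e3))
    exact PrimrecPred.not (primrec_valid.comp ((e2.comp Primrec.fst).pair
      ((e1.comp Primrec.fst).pair (Primrec.list_take.comp Primrec.snd (e3.comp Primrec.fst)))))
  · refine Helper227.PP.all_lt (f := fun x : (ℕ × List Bool) × (List Bool × List Bool × ℕ × ℕ) =>
      x.2.2.1.length + 1) (p := fun x j => ¬ valid x.1.2 x.1.1 (x.2.2.1.take j)) ?_
      (Primrec.succ.comp (Primrec.list_length.comp e4))
    exact PrimrecPred.not (primrec_valid.comp ((e2.comp Primrec.fst).pair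
      ((e1.comp Primrec.fst).pair (Primrec.list_take.comp Primrec.snd (e4.comp Primrec.fst)))))

open Classical in
/-- selection of a candidate, at stage `t` -/
noncomputable def selK (x : (ℕ × ℕ × List Bool) × ℕ) : Option (List Bool × List Bool × ℕ × ℕ) :=
  ((cands x.1).filterMap fun c => if condK x.1.1 x.1.2.2 c ∧
    ¬ qK (c.1, c.2.2.1, c.2.2.2, x.1.1) x.2 ∧ ¬ qK (c.2.1, c.2.2.1, c.2.2.2, x.1.1) x.2
    then some c else none).head?

theorem primrec_selK : Primrec selK := by
  classical
  unfold selK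
  refine Primrec.list_head?.comp (Primrec.listFilterMap (primrec_cands.comp Primrec.fst) ?_)
  have e1 : Primrec fun x : ((ℕ × ℕ × List Bool) × ℕ) × (List Bool × List Bool × ℕ × ℕ) =>
    x.1.1.1 := Primrec.fst.comp (Primrec.fst.comp Primrec.fst)
  have e2 : Primrec fun x : ((ℕ × ℕ × List Bool) × ℕ) × (List Bool × List Bool × ℕ × ℕ) =>
    x.1.1.2.2 := Primrec.snd.comp (Primrec.snd.comp (Primrec.fst.comp Primrec.fst))
  have e3 : Primrec fun x : ((ℕ × ℕ × List Bool) × ℕ) × (List Bool × List Bool × ℕ × ℕ) =>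
    x.2.2.2.1 := Primrec.fst.comp (Primrec.snd.comp (Primrec.snd.comp Primrec.snd))
  have e4 : Primrec fun x : ((ℕ × ℕ × List Bool) × ℕ) × (List Bool × List Bool × ℕ × ℕ) =>
    x.2.2.2.2 := Primrec.snd.comp (Primrec.snd.comp (Primrec.snd.comp Primrec.snd))
  refine Primrec.ite (PrimrecPred.and ?_ (PrimrecPred.and (PrimrecPred.not ?_)
    (PrimrecPred.not ?_))) (Primrec.option_some.comp Primrec.snd) (Primrec.const none)
  · exact primrec_condK.comp ((e1.pair e2).pair Primrec.snd)
  · exact qK_prim.comp ((Primrec.fst.comp Primrec.snd).pair (e3.pair (e4.pair e1)))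
      (Primrec.snd.comp Primrec.fst)
  · exact qK_prim.comp ((Primrec.fst.comp (Primrec.snd.comp Primrec.snd)).pair
      (e3.pair (e4.pair e1))) (Primrec.snd.comp Primrec.fst)

/-- padding by zeros up to length `n` -/
def pad (σ : List Bool) (n : ℕ) : List Bool := σ ++ (List.range (n - σ.length)).map fun _ => false

/-- adding the entry `w` -/
def put (σ w : List Bool) : List Bool := pad σ (encode w) ++ [true]

theorem primrec_put : Primrec₂ put := by
  unfold put pad
  refine Primrec.list_append.comp (Primrec.list_append.comp Primrec.fst (Primrec.list_map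
    (Primrec.list_range.comp (Primrec.nat_sub.comp (Primrec.encode.comp Primrec.snd)
      (Primrec.list_length.comp Primrec.fst))) (Primrec.const false).to₂)) (Primrec.const [true])

/-- the step of the construction -/
noncomputable def g (x : ℕ × List Bool × ℕ) : List Bool :=
  if x.1 % 2 = 0 then ((selG (x.1 / 2, x.2.1, x.2.2)).getD x.2.1) ++ [false]
  else ((selK (((x.1 / 2).unpair.1, (x.1 / 2).unpair.2, x.2.1), x.2.2)).map fun c =>
    put (put x.2.1 c.1) c.2.1).getD (x.2.1 ++ [false])

theorem primrec_g : Primrec g := by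
  unfold g
  have e0 : Primrec fun x : ℕ × List Bool × ℕ => x.1 / 2 :=
    Primrec.nat_div.comp Primrec.fst (Primrec.const 2)
  have e1 : Primrec fun x : ℕ × List Bool × ℕ => x.2.1 := Primrec.fst.comp Primrec.snd
  have e2 : Primrec fun x : ℕ × List Bool × ℕ => x.2.2 := Primrec.snd.comp Primrec.snd
  refine Primrec.ite ?_ ?_ ?_
  · exact Primrec.eq.comp (Primrec.nat_mod.comp Primrec.fst (Primrec.const 2)) (Primrec.const 0)
  · exact Primrec.list_append.comp (Primrec.option_getD.comp
      (primrec_selG.comp (e0.pair (e1.pair e2))) e1) (Primrec.const [false])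
  · refine Primrec.option_getD.comp (Primrec.option_map (primrec_selK.comp ?_) ?_)
      (Primrec.list_append.comp e1 (Primrec.const [false]))
    · exact ((Primrec.fst.comp (Primrec.unpair.comp e0)).pair
        ((Primrec.snd.comp (Primrec.unpair.comp e0)).pair e1)).pair e2
    · exact primrec_put.comp (primrec_put.comp (e1.comp Primrec.fst) (Primrec.fst.comp
        Primrec.snd)) (Primrec.fst.comp (Primrec.snd.comp Primrec.snd))

/-! ### Limits -/

theorem list_lim {β γ : Type*} (l : List β) (f : ℕ → β → Option γ) (v : β → Option γ)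
    (hv : ∀ c ∈ l, ∃ N, ∀ n, N ≤ n → f n c = v c) :
    ∃ N, ∀ n, N ≤ n → l.filterMap (f n) = l.filterMap v := by
  induction l with
  | nil => exact ⟨0, fun _ _ => rfl⟩
  | cons b l ih =>
    obtain ⟨N1, h1⟩ := hv b (by simp)
    obtain ⟨N2, h2⟩ := ih fun c hc => hv c (by simp [hc])
    refine ⟨max N1 N2, fun n hn => ?_⟩
    rw [List.filterMap_cons, List.filterMap_cons, h1 n (le_trans (le_max_left _ _) hn),
      h2 n (le_trans (le_max_right _ _) hn)]

theorem limG (i : ℕ) (σ : List Bool) : ∃ r : Option (List Bool),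
    (∃ N, ∀ t, N ≤ t → selG (i, σ, t) = r) ∧ (∀ τ, r = some τ → σ <+: τ ∧ P (i, τ)) ∧
      (r = none → ∀ τ, σ <+: τ → ¬ P (i, τ)) := by
  classical
  let v : ℕ → Option (List Bool) := fun c => (decode (α := List Bool) c).bind fun τ =>
    if σ <+: τ ∧ P (i, τ) then some τ else none
  have hv : ∀ c, ∃ N, ∀ n, N ≤ n → (fun t c => (decode (α := List Bool) c).bind fun τ =>
      if σ <+: τ ∧ qG (i, τ) t then some τ else none) n c = v c := by
    intro c
    cases hd : decode (α := List Bool) c with
    | none => exact ⟨0, fun _ _ => by simp [v, hd]⟩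
    | some τ =>
      simp only [v, hd, Option.bind_some]
      by_cases hP : P (i, τ)
      · obtain ⟨N, hN⟩ := (qG_iff _).1 hP
        refine ⟨N, fun n hn => ?_⟩
        have := qG_mono _ hn hN
        simp [hP, this]
      · refine ⟨0, fun n _ => ?_⟩
        have : ¬ qG (i, τ) n := fun h => hP ((qG_iff _).2 ⟨n, h⟩)
        simp [hP, this]
  by_cases hex : ∃ c, (v c).isSome
  · obtain ⟨c, hc, N, hN⟩ := head_lim _ v hv hex
    refine ⟨v c, ⟨N, fun t ht => hN t ht⟩, ?_, fun h => by simp [h] at hc⟩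
    intro τ hτ
    simp only [v, Option.bind_eq_some_iff] at hτ
    obtain ⟨τ', _, h2⟩ := hτ
    split_ifs at h2 with h3
    cases h2
    exact h3
  · refine ⟨none, ⟨0, fun t _ => ?_⟩, fun τ h => by simp at h, fun _ τ h1 h2 => ?_⟩
    · unfold selG
      have : ∀ L : List ℕ, (L.filterMap fun c => (decode (α := List Bool) c).bind fun τ =>
          if σ <+: τ ∧ qG (i, τ) t then some τ else none) = [] := by
        intro L
        rw [List.filterMap_eq_nil_iff]
        intro c _
        cases hd : decode (α := List Bool) c with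
        | none => rfl
        | some τ =>
          simp only [Option.bind_some]
          rw [if_neg]
          rintro ⟨h1, h2⟩
          exact hex ⟨c, by simp [v, hd, h1, (qG_iff _).2 ⟨t, h2⟩]⟩
      simp only [this]
      rfl
    · exact hex ⟨encode τ, by simp [v, h1, h2]⟩

theorem limK (k N : ℕ) (σ : List Bool) : ∃ r : Option (List Bool × List Bool × ℕ × ℕ),
    (∃ T, ∀ t, T ≤ t → selK ((k, N, σ), t) = r) ∧
      (∀ c, r = some c → c ∈ cands (k, N, σ) ∧ condK k σ c ∧
        ¬ R (c.1, c.2.2.1, c.2.2.2, k) ∧ ¬ R (c.2.1, c.2.2.1, c.2.2.2, k)) ∧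
      (r = none → ∀ c ∈ cands (k, N, σ), condK k σ c →
        R (c.1, c.2.2.1, c.2.2.2, k) ∨ R (c.2.1, c.2.2.1, c.2.2.2, k)) := by
  classical
  let v : List Bool × List Bool × ℕ × ℕ → Option (List Bool × List Bool × ℕ × ℕ) := fun c =>
    if condK k σ c ∧ ¬ R (c.1, c.2.2.1, c.2.2.2, k) ∧ ¬ R (c.2.1, c.2.2.1, c.2.2.2, k)
    then some c else none
  have hR : ∀ x, ∃ N, ∀ n, N ≤ n → (qK x n ↔ R x) := by
    intro x
    by_cases h : R x
    · obtain ⟨N, hN⟩ := (qK_iff _).1 h
      exact ⟨N, fun n hn => ⟨fun _ => h, fun _ => qK_mono _ hn hN⟩⟩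
    · exact ⟨0, fun n _ => ⟨fun h' => (qK_iff _).2 ⟨n, h'⟩, fun h' => absurd h' h⟩⟩
  obtain ⟨T, hT⟩ := list_lim (cands (k, N, σ)) (fun t c => if condK k σ c ∧
    ¬ qK (c.1, c.2.2.1, c.2.2.2, k) t ∧ ¬ qK (c.2.1, c.2.2.1, c.2.2.2, k) t
    then some c else none) v (by
      intro c _
      obtain ⟨N1, h1⟩ := hR (c.1, c.2.2.1, c.2.2.2, k)
      obtain ⟨N2, h2⟩ := hR (c.2.1, c.2.2.1, c.2.2.2, k)
      refine ⟨max N1 N2, fun n hn => ?_⟩
      simp only [v]
      rw [h1 n (le_trans (le_max_left _ _) hn), h2 n (le_trans (le_max_right _ _) hn)])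
  refine ⟨((cands (k, N, σ)).filterMap v).head?, ⟨T, fun t ht => ?_⟩, ?_, ?_⟩
  · unfold selK
    rw [← hT t ht]
  · intro c hc
    have h1 : c ∈ (cands (k, N, σ)).filterMap v := List.mem_of_mem_head? hc
    rw [List.mem_filterMap] at h1
    obtain ⟨c', h2, h3⟩ := h1
    simp only [v] at h3
    split_ifs at h3 with h4
    cases h3
    exact ⟨h2, h4⟩
  · intro hnone c hc hcond
    rw [List.head?_eq_none_iff, List.filterMap_eq_nil_iff] at hnone
    have h1 := hnone c hc
    simp only [v] at h1
    split_ifs at h1 with h4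
    by_contra hcon
    push Not at hcon
    exact h4 ⟨hcond, hcon.1, hcon.2⟩

theorem limg (s : ℕ) (σ : List Bool) : ∃ y, ∃ N, ∀ t, N ≤ t → g (s, σ, t) = y := by
  unfold g
  by_cases h : s % 2 = 0
  · obtain ⟨r, ⟨N, hN⟩, -⟩ := limG (s / 2) σ
    refine ⟨r.getD σ ++ [false], N, fun t ht => ?_⟩
    simp only [h, if_true]
    rw [hN t ht]
  · obtain ⟨r, ⟨N, hN⟩, -⟩ := limK (s / 2).unpair.1 (s / 2).unpair.2 σ
    refine ⟨(r.map fun c => put (put σ c.1) c.2.1).getD (σ ++ [false]), N, fun t ht => ?_⟩
    simp only [h, if_false]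
    rw [hN t ht]

/-- the limit step -/
noncomputable def gw (s : ℕ) (σ : List Bool) : List Bool := (limg s σ).choose

theorem gw_spec (s : ℕ) (σ : List Bool) : ∃ N, ∀ t, N ≤ t → g (s, σ, t) = gw s σ :=
  (limg s σ).choose_spec

/-- the approximations at stage `t` -/
noncomputable def St (t : ℕ) : ℕ → List Bool
  | 0 => []
  | s + 1 => g (s, St t s, t)

/-- the limit sequence -/
noncomputable def Sw : ℕ → List Bool
  | 0 => []
  | s + 1 => gw s (Sw s)

theorem st_lim (s : ℕ) : ∃ N, ∀ t, N ≤ t → St t s = Sw s := by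
  induction s with
  | zero => exact ⟨0, fun _ _ => rfl⟩
  | succ s ih =>
    obtain ⟨N1, h1⟩ := ih
    obtain ⟨N2, h2⟩ := gw_spec s (Sw s)
    refine ⟨max N1 N2, fun t ht => ?_⟩
    rw [St, Sw, h1 t (le_trans (le_max_left _ _) ht), h2 t (le_trans (le_max_right _ _) ht)]

theorem selG_prefix {i : ℕ} {σ τ : List Bool} {t : ℕ} (h : selG (i, σ, t) = some τ) :
    σ <+: τ := by
  classical
  unfold selG at h
  have h1 := List.mem_of_mem_head? h
  rw [List.mem_filterMap] at h1
  obtain ⟨c, _, h3⟩ := h1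
  rw [Option.bind_eq_some_iff] at h3
  obtain ⟨τ', _, h4⟩ := h3
  split_ifs at h4 with h5
  cases h4
  exact h5.1

theorem prefix_put (σ w : List Bool) : σ <+: put σ w := by
  unfold put pad
  rw [List.append_assoc]
  exact List.prefix_append _ _

theorem length_put_gt (σ w : List Bool) : σ.length < (put σ w).length := by
  unfold put pad
  simp only [List.length_append, List.length_map, List.length_range, List.length_cons,
    List.length_nil]
  omega

theorem g_ext (s : ℕ) (σ : List Bool) (t : ℕ) :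
    σ <+: g (s, σ, t) ∧ σ.length < (g (s, σ, t)).length := by
  unfold g
  by_cases h : s % 2 = 0
  · simp only [h, if_true]
    cases hs : selG (s / 2, σ, t) with
    | none => simp
    | some τ =>
      have := selG_prefix hs
      simp only [Option.getD_some]
      refine ⟨this.trans (List.prefix_append _ _), ?_⟩
      have := this.length_le
      simp only [List.length_append, List.length_cons, List.length_nil]
      omega
  · simp only [h, if_false]
    cases hs : selK (((s / 2).unpair.1, (s / 2).unpair.2, σ), t) with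
    | none => simp
    | some c =>
      simp only [Option.map_some, Option.getD_some]
      exact ⟨(prefix_put _ _).trans (prefix_put _ _),
        (length_put_gt _ _).trans (length_put_gt _ _)⟩

theorem St_le (t : ℕ) {s s' : ℕ} (h : s ≤ s') : St t s <+: St t s' := by
  induction h with
  | refl => exact List.prefix_refl _
  | step _ ih => exact ih.trans (g_ext _ _ _).1

theorem Sw_step (s : ℕ) : Sw s <+: Sw (s + 1) ∧ (Sw s).length < (Sw (s + 1)).length := by
  obtain ⟨N, hN⟩ := gw_spec s (Sw s)
  rw [Sw, ← hN N le_rfl]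
  exact g_ext _ _ _

theorem Sw_le {s s' : ℕ} (h : s ≤ s') : Sw s <+: Sw s' := by
  induction h with
  | refl => exact List.prefix_refl _
  | step _ ih => exact ih.trans (Sw_step _).1

theorem le_length_Sw (s : ℕ) : s ≤ (Sw s).length := by
  induction s with
  | zero => simp
  | succ s ih => have := (Sw_step s).2; omega

/-- the oracle -/
noncomputable def A (n : ℕ) : Bool := (Sw (n + 1)).getD n false

theorem getElem?_prefix {α : Type*} {l l' : List α} (h : l <+: l') {i : ℕ} (hi : i < l.length) :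
    l'[i]? = l[i]? := by
  obtain ⟨r, rfl⟩ := h
  rw [List.getElem?_append_left hi]

theorem A_eq {s n : ℕ} (h : n < (Sw s).length) : (Sw s)[n]? = some (A n) := by
  have h1 : n < (Sw (n + 1)).length := lt_of_lt_of_le (Nat.lt_succ_self n) (le_length_Sw _)
  have h2 : (Sw (n + 1))[n]? = some (A n) := by
    unfold A
    rw [List.getD, List.getElem?_eq_getElem h1]
    rfl
  rcases le_total s (n + 1) with h3 | h3
  · rw [← getElem?_prefix (Sw_le h3) h, h2]
  · rw [getElem?_prefix (Sw_le h3) h1, h2]

theorem pre_Sw (s : ℕ) : pre A (Sw s).length = Sw s := by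
  refine List.ext_getElem? fun i => ?_
  by_cases h : i < (Sw s).length
  · rw [A_eq h]
    exact Helper227.pre_getElem? A _ _ h
  · rw [List.getElem?_eq_none (by rw [length_pre]; omega), List.getElem?_eq_none (by omega)]

/-- the computable approximation -/
noncomputable def a (t : ℕ) : List Bool := St t t

theorem primrec_a : Primrec a := by
  have h : Primrec fun x : ℕ × ℕ => (Nat.rec ([] : List Bool) (fun s τ => g (s, τ, x.1)) x.2 :
      List Bool) := by
    refine Primrec.nat_rec' (f := fun x : ℕ × ℕ => x.2) (g := fun _ => ([] : List Bool))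
      (h := fun x p => g (p.1, p.2, x.1)) Primrec.snd (Primrec.const _) ?_
    exact primrec_g.comp ((Primrec.fst.comp Primrec.snd).pair
      ((Primrec.snd.comp Primrec.snd).pair (Primrec.fst.comp Primrec.fst)))
  refine (h.comp (Primrec.id.pair Primrec.id)).of_eq fun t => ?_
  unfold a
  have : ∀ s, (Nat.rec ([] : List Bool) (fun s τ => g (s, τ, t)) s : List Bool) = St t s := by
    intro s
    induction s with
    | zero => rfl
    | succ s ih => rw [St, ← ih]
  exact this t

theorem a_lim (n : ℕ) : ∃ N, ∀ t, N ≤ t → pre A n <+: a t := by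
  obtain ⟨N, hN⟩ := st_lim n
  refine ⟨max N n, fun t ht => ?_⟩
  have h1 : Sw n <+: a t := by
    rw [← hN t (le_trans (le_max_left _ _) ht)]
    exact St_le t (le_trans (le_max_right _ _) ht)
  refine List.IsPrefix.trans ?_ h1
  rw [← pre_Sw n]
  exact pre_prefix A (le_length_Sw n)

theorem A_generic (S : List Bool → Prop) (hS : REPred S) :
    ∃ n, S (pre A n) ∨ ∀ τ, pre A n <+: τ → ¬ S τ := by
  classical
  obtain ⟨c, hc⟩ := Nat.Partrec.Code.exists_code.1 hS
  have hc' : ∀ τ, P (encode c, τ) ↔ S τ := by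
    intro τ
    have h1 : (c.eval (encode τ)).Dom ↔ S τ := by
      rw [hc]
      simp [Part.assert]
    rw [← h1, Part.dom_iff_mem]
    simp only [P, Val, Denumerable.ofNat_encode]
  obtain ⟨r, ⟨N, hN⟩, hr1, hr2⟩ := limG (encode c) (Sw (2 * encode c))
  cases r with
  | none =>
    refine ⟨(Sw (2 * encode c)).length, Or.inr fun τ hτ hSτ => ?_⟩
    rw [pre_Sw] at hτ
    exact hr2 rfl τ hτ ((hc' τ).2 hSτ)
  | some τ =>
    obtain ⟨h1, h2⟩ := hr1 τ rfl
    refine ⟨τ.length, Or.inl ?_⟩
    obtain ⟨N', hN'⟩ := gw_spec (2 * encode c) (Sw (2 * encode c))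
    have h3 := hN' (max N N') (le_max_right _ _)
    unfold g at h3
    simp only [Nat.mul_mod_right, if_true] at h3
    rw [Nat.mul_div_cancel_left _ (by norm_num), hN _ (le_max_left _ _), Option.getD_some] at h3
    have h4 : Sw (2 * encode c + 1) = τ ++ [false] := by rw [Sw, h3]
    have h5 : pre A τ.length = τ := by
      have h6 := pre_Sw (2 * encode c + 1)
      rw [h4] at h6
      have h7 := take_pre A (τ ++ [false]).length τ.length (by simp)
      rw [h6] at h7
      rw [← h7]
      simp
    rw [h5]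
    exact (hc' τ).1 h2

/-- the strategies -/
theorem A_strategy (k N : ℕ) : ∃ σ : List Bool, pre A σ.length = σ ∧
    ((∃ c ∈ cands (k, N, σ), condK k σ c ∧
        ¬ R (c.1, c.2.2.1, c.2.2.2, k) ∧ ¬ R (c.2.1, c.2.2.1, c.2.2.2, k) ∧
        pre A (put (put σ c.1) c.2.1).length = put (put σ c.1) c.2.1) ∨
      ∀ c ∈ cands (k, N, σ), condK k σ c →
        R (c.1, c.2.2.1, c.2.2.2, k) ∨ R (c.2.1, c.2.2.1, c.2.2.2, k)) := by
  obtain ⟨s, hs⟩ : ∃ s, s = 2 * Nat.pair k N + 1 := ⟨_, rfl⟩
  refine ⟨Sw s, pre_Sw s, ?_⟩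
  obtain ⟨r, ⟨T, hT⟩, hr1, hr2⟩ := limK k N (Sw s)
  cases r with
  | none => exact Or.inr (hr2 rfl)
  | some c =>
    obtain ⟨h1, h2, h3, h4⟩ := hr1 c rfl
    refine Or.inl ⟨c, h1, h2, h3, h4, ?_⟩
    obtain ⟨N', hN'⟩ := gw_spec s (Sw s)
    have h5 := hN' (max T N') (le_max_right _ _)
    unfold g at h5
    have h6 : ¬ s % 2 = 0 := by omega
    have h7 : s / 2 = Nat.pair k N := by omega
    simp only [h6, if_false, h7, Nat.unpair_pair] at h5
    rw [hT _ (le_max_left _ _), Option.map_some, Option.getD_some] at h5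
    have h8 : Sw (s + 1) = put (put (Sw s) c.1) c.2.1 := by rw [Sw, ← h5]
    rw [← h8]
    exact pre_Sw _

end Pool.Agent.V7H75.EX
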