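import Pool.Agent.V7H75.EX.Low
import Pool.Agent.Helper227.TD.AE

set_option autoImplicit false

namespace Pool.Agent.V7H75.EX

open Encodable MeasureTheory
open scoped ENNReal
open Pool.Agent.Helper227 (S1 lam)

/-- the uniform measure on the cylinder of `w` -/
noncomputable def lw (w : List Bool) : Measure (ℕ → Bool) := ProbabilityTheory.cond lam (cyl w)

theorem cyl_eq_h (w : List Bool) : cyl w = Helper227.cyl w := rfl

theorem mem_cyl_iff {X : ℕ → Bool} {w : List Bool} : X ∈ cyl w ↔ pre X w.length = w :=
  Helper227.mem_cyl_iff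

theorem measurableSet_cyl (w : List Bool) : MeasurableSet (cyl w) := Helper227.measurableSet_cyl w

theorem lam_cyl (w : List Bool) : lam (cyl w) = (1 / 2) ^ w.length := Helper227.lam_cyl w

theorem cyl_subset {v w : List Bool} (h : v <+: w) : cyl w ⊆ cyl v := Helper227.cyl_subset h

theorem lam_cyl_ne (w : List Bool) : lam (cyl w) ≠ 0 := by
  rw [lam_cyl]
  exact pow_ne_zero _ (by simp)

instance (w : List Bool) : IsProbabilityMeasure (lw w) :=
  ProbabilityTheory.cond_isProbabilityMeasure (lam_cyl_ne w)

theorem lw_apply (w : List Bool) (U : Set (ℕ → Bool)) :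
    lw w U = 2 ^ w.length * lam (cyl w ∩ U) := by
  unfold lw
  rw [ProbabilityTheory.cond_apply (measurableSet_cyl w), lam_cyl]
  congr 1
  rw [one_div, ← ENNReal.inv_pow, inv_inv]

theorem cyl_inter_of_not {v w : List Bool} (h1 : ¬ v <+: w) (h2 : ¬ w <+: v) :
    cyl w ∩ cyl v = ∅ := by
  ext X
  simp only [Set.mem_inter_iff, Set.mem_empty_iff_false, iff_false, not_and]
  intro hw hv
  rw [mem_cyl_iff] at hw hv
  rcases le_total v.length w.length with h | h
  · exact h1 (by rw [← hw, ← hv]; simpa using pre_prefix X h)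
  · exact h2 (by rw [← hw, ← hv]; simpa using pre_prefix X h)

/-- numerator of the approximation of the measure of a cylinder -/
def num (w σ : List Bool) (n : ℕ) : ℕ :=
  if σ.take σ.length = w.take σ.length then 2 ^ n
  else if w = σ.take w.length then 2 ^ n / 2 ^ (σ.length - w.length) else 0

theorem take_iff {σ w : List Bool} : σ.take σ.length = w.take σ.length ↔ σ <+: w := by
  rw [List.take_length, List.prefix_iff_eq_take]

theorem num_spec (w σ : List Bool) (n : ℕ) :
    |((num w σ n : ℕ) : ℝ) / 2 ^ n - (lw w).real (cyl σ)| ≤ 1 / 2 ^ n := by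
  have h2 : (0 : ℝ) < 2 ^ n := by positivity
  unfold num
  by_cases h1 : σ <+: w
  · rw [if_pos (take_iff.2 h1)]
    have h3 : (lw w).real (cyl σ) = 1 := by
      rw [measureReal_def, lw_apply, Set.inter_eq_left.2 (cyl_subset h1), lam_cyl, ← mul_pow]
      simp [ENNReal.mul_inv_cancel]
    rw [h3]
    push_cast
    rw [div_self h2.ne', sub_self, abs_zero]
    positivity
  · rw [if_neg (fun h => h1 (take_iff.1 h))]
    by_cases h4 : w <+: σ
    · have hl : w.length ≤ σ.length := h4.length_le
      rw [if_pos (List.prefix_iff_eq_take.1 h4)]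
      have h3 : (lw w).real (cyl σ) = 1 / 2 ^ (σ.length - w.length) := by
        rw [measureReal_def, lw_apply, Set.inter_eq_right.2 (cyl_subset h4), lam_cyl]
        rw [ENNReal.toReal_mul, ENNReal.toReal_pow, ENNReal.toReal_pow]
        obtain ⟨d, hd⟩ : ∃ d, σ.length = w.length + d := ⟨σ.length - w.length, by omega⟩
        rw [hd, Nat.add_sub_cancel_left, pow_add, ← mul_assoc, ← mul_pow]
        simp
      rw [h3]
      set d := σ.length - w.length with hd
      rcases le_total d n with h | h
      · rw [Nat.pow_div h (by norm_num)]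
        push_cast
        have h5 : (2 : ℝ) ^ (n - d) / 2 ^ n = 1 / 2 ^ d := by
          rw [div_eq_div_iff (by positivity) (by positivity), one_mul, ← pow_add,
            Nat.sub_add_cancel h]
        rw [h5, sub_self, abs_zero]
        positivity
      · rcases h.eq_or_lt with h | h
        · rw [← h, Nat.div_self (by positivity)]
          simp
        · rw [Nat.div_eq_of_lt (Nat.pow_lt_pow_right (by norm_num) h)]
          rw [Nat.cast_zero, zero_div, zero_sub, abs_neg, abs_of_pos (by positivity)]
          exact one_div_le_one_div_of_le h2 (pow_le_pow_right₀ (by norm_num) h.le)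
    · rw [if_neg (fun h => h4 (List.prefix_iff_eq_take.2 h))]
      have h3 : (lw w).real (cyl σ) = 0 := by
        rw [measureReal_def, lw_apply, cyl_inter_of_not h1 h4]
        simp
      rw [h3]
      simp

theorem primrec_num : Primrec fun x : List Bool × List Bool × ℕ => num x.1 x.2.1 x.2.2 := by
  unfold num
  refine Primrec.ite ?_ ?_ (Primrec.ite ?_ ?_ ?_)
  · exact Primrec.eq.comp
      (Primrec.list_take.comp (Primrec.list_length.comp (Primrec.fst.comp Primrec.snd))
        (Primrec.fst.comp Primrec.snd))
      (Primrec.list_take.comp (Primrec.list_length.comp (Primrec.fst.comp Primrec.snd))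
        Primrec.fst)
  · exact Helper227.primrec_pow.comp (Primrec.const 2) (Primrec.snd.comp Primrec.snd)
  · exact Primrec.eq.comp Primrec.fst
      (Primrec.list_take.comp (Primrec.list_length.comp Primrec.fst)
        (Primrec.fst.comp Primrec.snd))
  · exact Primrec.nat_div.comp
      (Helper227.primrec_pow.comp (Primrec.const 2) (Primrec.snd.comp Primrec.snd))
      (Helper227.primrec_pow.comp (Primrec.const 2) (Primrec.nat_sub.comp
        (Primrec.list_length.comp (Primrec.fst.comp Primrec.snd))
        (Primrec.list_length.comp Primrec.fst)))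
  · exact Primrec.const 0

/-- indices of the uniform measures on cylinders -/
theorem exists_idx : ∃ idx : List Bool → ℕ, Primrec idx ∧ ∀ w, IsMeasIndex (idx w) (lw w) := by
  let F : ℕ → ℕ := fun p =>
    (((decode (α := List Bool) p.unpair.1).bind fun w =>
      (decode (α := List Bool × ℕ) p.unpair.2).map fun z => num w z.1 z.2).getD 0)
  have hF : Primrec F := by
    refine Primrec.option_getD.comp (Primrec.option_bind
      (Primrec.decode.comp (Primrec.fst.comp Primrec.unpair)) ?_) (Primrec.const 0)
    refine Primrec.option_map (Primrec.decode.comp (Primrec.snd.comp (Primrec.unpair.comp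
      Primrec.fst))) ?_
    exact primrec_num.comp ((Primrec.snd.comp Primrec.fst).pair
      ((Primrec.fst.comp Primrec.snd).pair (Primrec.snd.comp Primrec.snd)))
  obtain ⟨c, hc⟩ := Nat.Partrec.Code.exists_code.1 (Partrec.nat_iff.1 hF.to_comp.partrec)
  refine ⟨fun w => encode (c.curry (encode w)), ?_, fun w σ n => ⟨num w σ n, ?_, num_spec w σ n⟩⟩
  · exact Primrec.encode.comp (Nat.Partrec.Code.primrec₂_curry.comp (Primrec.const c)
      Primrec.encode)
  · rw [Denumerable.ofNat_encode, Nat.Partrec.Code.eval_curry, hc]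
    change num w σ n ∈ Part.some _
    rw [Part.mem_some_iff]
    simp [F]

theorem computableMeasure_lw (w : List Bool) : ComputableMeasure (lw w) := by
  obtain ⟨idx, -, h⟩ := exists_idx
  exact ⟨inferInstance, idx w, h w⟩

/-- an index belongs to at most one of two incompatible cylinders -/
theorem index_ne {e : ℕ} {v w : List Bool} (h1 : ¬ v <+: w) (h2 : ¬ w <+: v)
    (hv : IsMeasIndex e (lw v)) (hw : IsMeasIndex e (lw w)) : False := by
  obtain ⟨m, hm, hm1⟩ := hv v 2
  obtain ⟨m', hm', hm2⟩ := hw v 2
  have := Part.mem_unique hm hm'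
  subst this
  have h3 : (lw v).real (cyl v) = 1 := by
    rw [measureReal_def, lw_apply, Set.inter_self, lam_cyl, ← mul_pow]
    simp [ENNReal.mul_inv_cancel]
  have h4 : (lw w).real (cyl v) = 0 := by
    rw [measureReal_def, lw_apply, cyl_inter_of_not h1 h2]
    simp
  rw [h3, abs_le] at hm1
  rw [h4, abs_le] at hm2
  norm_num at hm1 hm2
  linarith [hm1.1, hm2.2]

/-- randomness for the uniform measure on a cylinder -/
theorem mlrandom_lw {w : List Bool} {X : ℕ → Bool} :
    MLRandom (lw w) X ↔ X ∈ cyl w ∧ MLRandom lam X := by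
  constructor
  · intro h
    constructor
    · -- the complement of the cylinder is null
      have hW : REPred fun x : ℕ × List Bool => x ∈ {x : ℕ × List Bool |
          x.2.length = w.length ∧ x.2 ≠ w} := by
        refine (S1.of_prim (PrimrecPred.and ?_ (PrimrecPred.not ?_))).re
        · exact Primrec.eq.comp (Primrec.list_length.comp Primrec.snd) (Primrec.const _)
        · exact Primrec.eq.comp Primrec.snd (Primrec.const _)
      obtain ⟨n, hn⟩ := h _ hW (fun n => by
        have h0 : lw w (⋃ σ ∈ {σ : List Bool | (n, σ) ∈ {x : ℕ × List Bool |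
            x.2.length = w.length ∧ x.2 ≠ w}}, cyl σ) = 0 := by
          rw [lw_apply]
          have : cyl w ∩ (⋃ σ ∈ {σ : List Bool | (n, σ) ∈ {x : ℕ × List Bool |
            x.2.length = w.length ∧ x.2 ≠ w}}, cyl σ) = ∅ := by
            ext Y
            simp only [Set.mem_inter_iff, Set.mem_iUnion, Set.mem_ofPred_eq, exists_prop,
              Set.mem_empty_iff_false, iff_false, not_and, not_exists]
            rintro hY σ ⟨h1, h2⟩ hYσ
            rw [mem_cyl_iff] at hY hYσ
            rw [h1, hY] at hYσ
            exact h2 hYσ.symm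
          rw [this]
          simp
        rw [h0]
        exact zero_le)
      by_contra hX
      refine hn (pre X w.length) ⟨length_pre _ _, fun h => hX (mem_cyl_iff.2 h)⟩ ?_
      rw [mem_cyl_iff, length_pre]
    · intro W hW hm
      have hW' : REPred fun x : ℕ × List Bool => x ∈ {x : ℕ × List Bool |
          (x.1 + w.length, x.2) ∈ W} := by
        refine ((S1.of_re hW).comp (f := fun x : ℕ × List Bool => (x.1 + w.length, x.2)) ?_).re
        exact (Primrec.nat_add.comp Primrec.fst (Primrec.const _)).pair Primrec.snd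
      obtain ⟨n, hn⟩ := h _ hW' (fun n => by
        rw [lw_apply]
        refine (mul_le_mul_right (measure_mono Set.inter_subset_right) _).trans ?_
        refine (mul_le_mul_right (hm (n + w.length)) _).trans ?_
        rw [pow_add, mul_comm ((1 / 2 : ℝ≥0∞) ^ n), ← mul_assoc, ← mul_pow]
        simp [ENNReal.mul_inv_cancel])
      exact ⟨n + w.length, fun σ hσ => hn σ hσ⟩
  · rintro ⟨hX, h⟩ W hW hm
    have hW' : REPred fun x : ℕ × List Bool => x ∈ {x : ℕ × List Bool |
        w <+: x.2 ∧ ∃ j : ℕ, (x.1, x.2.take j) ∈ W} := by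
      refine (S1.and (S1.of_prim ?_) (S1.ex (p := fun (x : ℕ × List Bool) (j : ℕ) =>
        (x.1, x.2.take j) ∈ W) ((S1.of_re hW).comp
          (f := fun x : (ℕ × List Bool) × ℕ => (x.1.1, x.1.2.take x.2)) ?_))).re
      · exact primrec_prefix.comp (Primrec.const w) Primrec.snd
      · exact (Primrec.fst.comp Primrec.fst).pair (Primrec.list_take.comp Primrec.snd
          (Primrec.snd.comp Primrec.fst))
    obtain ⟨n, hn⟩ := h _ hW' (fun n => by
      refine le_trans ?_ (hm n)
      rw [lw_apply]
      refine le_trans (measure_mono (t := cyl w ∩ ⋃ σ ∈ {σ : List Bool | (n, σ) ∈ W}, cyl σ) ?_) ?_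
      · intro Y hY
        simp only [Set.mem_iUnion, Set.mem_ofPred_eq, exists_prop, Set.mem_inter_iff] at hY ⊢
        obtain ⟨σ, ⟨h1, j, h2⟩, h3⟩ := hY
        exact ⟨cyl_subset h1 h3, _, h2, cyl_subset (List.take_prefix _ _) h3⟩
      · calc lam (cyl w ∩ ⋃ σ ∈ {σ : List Bool | (n, σ) ∈ W}, cyl σ)
            = 1 * lam (cyl w ∩ ⋃ σ ∈ {σ : List Bool | (n, σ) ∈ W}, cyl σ) := (one_mul _).symm
          _ ≤ 2 ^ w.length * lam (cyl w ∩ ⋃ σ ∈ {σ : List Bool | (n, σ) ∈ W}, cyl σ) := by
            refine mul_le_mul_left ?_ _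
            exact one_le_pow₀ (by norm_num))
    refine ⟨n, fun σ hσ hXσ => ?_⟩
    refine hn (pre X (max w.length σ.length)) ⟨?_, σ.length, ?_⟩ ?_
    · rw [mem_cyl_iff] at hX
      conv_lhs => rw [← hX]
      exact pre_prefix X (le_max_left _ _)
    · rw [take_pre _ _ _ (le_max_right _ _), mem_cyl_iff.1 hXσ]
      exact hσ
    · rw [mem_cyl_iff, length_pre]

theorem ae_random : ∀ᵐ X ∂lam, MLRandom lam X := Helper227.ae_MLRandom

/-- a set of positive measure contains a random real -/
theorem exists_random {S : Set (ℕ → Bool)} (hS : 0 < lam S) : ∃ X ∈ S, MLRandom lam X :=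
  Helper227.exists_mem_of_ae hS ae_random

end Pool.Agent.V7H75.EX
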