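import Mathlib

/-!
Definitions for the comparison of lowness for EX-learning of reals and of computable measures.
-/

set_option autoImplicit false

open MeasureTheory

namespace Pool.Agent.V7H75.EX

/-- The characteristic function of the set with characteristic sequence `A`, as an oracle. -/
def chi (A : ℕ → Bool) : ℕ →. ℕ := fun n => Part.some (A n).toNat

/-- The prefix of length `n` of the real `X`. -/
def pre (X : ℕ → Bool) (n : ℕ) : List Bool := (List.range n).map X

/-- The cylinder of the string `σ`: all reals extending `σ`. -/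
def cyl (σ : List Bool) : Set (ℕ → Bool) := {X | ∀ (i : ℕ) (h : i < σ.length), X i = σ[i]}

/-- The values of the learner `L` on the prefixes of `X` converge to `e`. -/
def ConvTo (L : List Bool → ℕ) (X : ℕ → Bool) (e : ℕ) : Prop :=
  ∃ N, ∀ n, N ≤ n → L (pre X n) = e

/-- `e` is an index of the real `Z`: the partial computable function with Goedel number `e` is
(total and equal to) the characteristic function of `Z`. -/
def IsRealIndex (e : ℕ) (Z : ℕ → Bool) : Prop :=
  ∀ n, (Z n).toNat ∈ (Denumerable.ofNat Nat.Partrec.Code e).eval n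

/-- The learner `L` EX-learns the class `C` of reals. -/
def LearnsReals (L : List Bool → ℕ) (C : Set (ℕ → Bool)) : Prop :=
  ∀ Z ∈ C, ∃ e, ConvTo L Z e ∧ IsRealIndex e Z

/-- The oracle `A` is low for EX-learning of reals. -/
def LowReals (A : ℕ → Bool) : Prop :=
  ∀ C : Set (ℕ → Bool), (∀ Z ∈ C, Computable Z) →
    (∃ L : List Bool → ℕ, ComputableIn {chi A} L ∧ LearnsReals L C) →
    ∃ L : List Bool → ℕ, Computable L ∧ LearnsReals L C

/-- `e` is an index of the measure `μ`: the partial computable function with Goedel number `e`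
gives, for each string `σ` and each `n`, the numerator of a dyadic rational with denominator `2 ^ n`
whose distance to `μ [σ]` is at most `2 ^ (-n)`. -/
def IsMeasIndex (e : ℕ) (μ : Measure (ℕ → Bool)) : Prop :=
  ∀ (σ : List Bool) (n : ℕ), ∃ m : ℕ,
    m ∈ (Denumerable.ofNat Nat.Partrec.Code e).eval (Encodable.encode (σ, n)) ∧
    |(m : ℝ) / 2 ^ n - μ.real (cyl σ)| ≤ 1 / 2 ^ n

/-- `μ` is a computable probability measure on Cantor space. -/
def ComputableMeasure (μ : Measure (ℕ → Bool)) : Prop :=
  IsProbabilityMeasure μ ∧ ∃ e, IsMeasIndex e μ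

/-- `X` is Martin-Löf random with respect to `μ`: for each uniformly c.e. sequence of open sets the
`n`-th of which has `μ`-measure at most `2 ^ (-n)`, some member of the sequence omits `X`. -/
def MLRandom (μ : Measure (ℕ → Bool)) (X : ℕ → Bool) : Prop :=
  ∀ W : Set (ℕ × List Bool), (REPred fun x => x ∈ W) →
    (∀ n, μ (⋃ σ ∈ {σ : List Bool | (n, σ) ∈ W}, cyl σ) ≤ (1 / 2) ^ n) →
      ∃ n, ∀ σ : List Bool, (n, σ) ∈ W → X ∉ cyl σ

/-- The learner `L` EX-learns the class `V` of measures. -/
def LearnsMeas (L : List Bool → ℕ) (V : Set (Measure (ℕ → Bool))) : Prop :=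
  ∀ μ ∈ V, ∀ X : ℕ → Bool, MLRandom μ X →
    ∃ e, ConvTo L X e ∧ ∃ ν ∈ V, IsMeasIndex e ν ∧ MLRandom ν X

/-- The oracle `A` is low for EX-learning of measures. -/
def LowMeas (A : ℕ → Bool) : Prop :=
  ∀ V : Set (Measure (ℕ → Bool)), (∀ μ ∈ V, ComputableMeasure μ) →
    (∃ L : List Bool → ℕ, ComputableIn {chi A} L ∧ LearnsMeas L V) →
    ∃ L : List Bool → ℕ, Computable L ∧ LearnsMeas L V

end Pool.Agent.V7H75.EX
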