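import Pool.Agent.V7H75.EX.Defs
import Pool.Agent.Helper227.Use

set_option autoImplicit false

namespace Pool.Agent.V7H75.EX

open Encodable
open Pool.Agent.Helper227 (S1)

theorem length_pre (X : ℕ → Bool) (n : ℕ) : (pre X n).length = n := by simp [pre]

theorem take_pre (X : ℕ → Bool) (n m : ℕ) (h : m ≤ n) : (pre X n).take m = pre X m :=
  Helper227.take_pre X n m h

theorem pre_prefix (X : ℕ → Bool) {m n : ℕ} (h : m ≤ n) : pre X m <+: pre X n :=
  Helper227.pre_prefix X h

theorem primrec_prefix : PrimrecRel (fun σ τ : List Bool => σ <+: τ) := by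
  have h : PrimrecPred (fun x : List Bool × List Bool => x.1 = x.2.take x.1.length) :=
    Primrec.eq.comp Primrec.fst (Primrec.list_take.comp (Primrec.list_length.comp Primrec.fst)
      Primrec.snd)
  exact h.of_eq fun x => List.prefix_iff_eq_take.symm

/-- the first hit of a search that stabilises pointwise -/
theorem head_lim {β : Type*} (f : ℕ → ℕ → Option β) (v : ℕ → Option β)
    (hv : ∀ c, ∃ N, ∀ n, N ≤ n → f n c = v c) (h : ∃ c, (v c).isSome) :
    ∃ c, (v c).isSome ∧ ∃ N, ∀ n, N ≤ n →
      ((List.range (n + 1)).filterMap (f n)).head? = v c := by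
  classical
  have hc := Nat.find_spec h
  have hlt : ∀ c' < Nat.find h, v c' = none := fun c' hc' => by
    have := Nat.find_min h hc'
    simpa using this
  generalize Nat.find h = c at hc hlt
  refine ⟨c, hc, ?_⟩
  choose M hM using hv
  refine ⟨c + 1 + (Finset.range (c + 1)).sup M, fun n hn => ?_⟩
  have hle : ∀ c' ≤ c, f n c' = v c' := fun c' hc' => hM c' n (by
    have : M c' ≤ (Finset.range (c + 1)).sup M :=
      Finset.le_sup (f := M) (Finset.mem_range.2 (Nat.lt_succ_of_le hc'))
    omega)
  obtain ⟨d, rfl⟩ : ∃ d, n = c + d := ⟨n - c, by omega⟩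
  rw [show c + d + 1 = c + (d + 1) by ring, List.range_add, List.range_succ_eq_map,
    List.map_cons, List.filterMap_append]
  have h1 : (List.range c).filterMap (f (c + d)) = [] := by
    rw [List.filterMap_eq_nil_iff]
    intro a ha
    rw [List.mem_range] at ha
    rw [hle a ha.le, hlt a ha]
  obtain ⟨y, hy⟩ := Option.isSome_iff_exists.1 hc
  rw [h1, List.nil_append, Nat.add_zero, List.filterMap_cons, hle c le_rfl, hy]
  rfl

section learner

/-- the guess `z` looks correct on the string `x` -/
def good (a : ℕ → List Bool) (q : List Bool × ℕ × ℕ → ℕ → Prop) (x : List Bool)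
    (z : List Bool × ℕ × ℕ) : Prop :=
  (z.1 <+: a x.length) ∧ ∀ c < x.length + 1, ∀ τ ∈ (decode (α := List Bool) c).toList,
    ∀ j < x.length + 1, ∀ m < x.length + 1,
      ¬ (z.1 <+: τ ∧ z.2.1 ≤ j ∧ m ≠ z.2.2 ∧ q (τ, encode (x.take j), m) x.length)

theorem primrec_good {a : ℕ → List Bool} (ha : Primrec a) {q : List Bool × ℕ × ℕ → ℕ → Prop}
    (hq : PrimrecRel q) : PrimrecRel (good a q) := by
  unfold good
  refine PrimrecPred.and ?_ ?_
  · exact primrec_prefix.comp (Primrec.fst.comp Primrec.snd)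
      (ha.comp (Primrec.list_length.comp Primrec.fst))
  · refine Helper227.PP.all_lt (α := List Bool × (List Bool × ℕ × ℕ))
      (f := fun p => p.1.length + 1)
      (p := fun p c => ∀ τ ∈ (decode (α := List Bool) c).toList,
        ∀ j < p.1.length + 1, ∀ m < p.1.length + 1,
          ¬ (p.2.1 <+: τ ∧ p.2.2.1 ≤ j ∧ m ≠ p.2.2.2 ∧
            q (τ, encode (p.1.take j), m) p.1.length)) ?_
      (Primrec.succ.comp (Primrec.list_length.comp Primrec.fst))
    refine Helper227.PP.all_mem (α := (List Bool × (List Bool × ℕ × ℕ)) × ℕ)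
      (f := fun p => (decode (α := List Bool) p.2).toList)
      (p := fun p τ => ∀ j < p.1.1.length + 1, ∀ m < p.1.1.length + 1,
          ¬ (p.1.2.1 <+: τ ∧ p.1.2.2.1 ≤ j ∧ m ≠ p.1.2.2.2 ∧
            q (τ, encode (p.1.1.take j), m) p.1.1.length)) ?_
      (Primrec.optionToList.comp (Primrec.decode.comp Primrec.snd))
    refine Helper227.PP.all_lt (α := ((List Bool × (List Bool × ℕ × ℕ)) × ℕ) × List Bool)
      (f := fun p => p.1.1.1.length + 1)
      (p := fun p j => ∀ m < p.1.1.1.length + 1,
          ¬ (p.1.1.2.1 <+: p.2 ∧ p.1.1.2.2.1 ≤ j ∧ m ≠ p.1.1.2.2.2 ∧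
            q (p.2, encode (p.1.1.1.take j), m) p.1.1.1.length)) ?_
      (Primrec.succ.comp (Primrec.list_length.comp (Primrec.fst.comp (Primrec.fst.comp
        Primrec.fst))))
    refine Helper227.PP.all_lt
      (α := (((List Bool × (List Bool × ℕ × ℕ)) × ℕ) × List Bool) × ℕ)
      (f := fun p => p.1.1.1.1.length + 1)
      (p := fun p m =>
          ¬ (p.1.1.1.2.1 <+: p.1.2 ∧ p.1.1.1.2.2.1 ≤ p.2 ∧ m ≠ p.1.1.1.2.2.2 ∧
            q (p.1.2, encode (p.1.1.1.1.take p.2), m) p.1.1.1.1.length)) ?_
      (Primrec.succ.comp (Primrec.list_length.comp (Primrec.fst.comp (Primrec.fst.comp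
        (Primrec.fst.comp Primrec.fst)))))
    have e0 : Primrec fun p : ((((List Bool × (List Bool × ℕ × ℕ)) × ℕ) × List Bool) × ℕ) × ℕ =>
        p.1.1.1.1 := Primrec.fst.comp (Primrec.fst.comp (Primrec.fst.comp Primrec.fst))
    have e1 : Primrec fun p : ((((List Bool × (List Bool × ℕ × ℕ)) × ℕ) × List Bool) × ℕ) × ℕ =>
        p.1.1.1.1.1 := Primrec.fst.comp e0
    have e2 : Primrec fun p : ((((List Bool × (List Bool × ℕ × ℕ)) × ℕ) × List Bool) × ℕ) × ℕ =>
        p.1.1.1.1.2 := Primrec.snd.comp e0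
    have e3 : Primrec fun p : ((((List Bool × (List Bool × ℕ × ℕ)) × ℕ) × List Bool) × ℕ) × ℕ =>
        p.1.1.2 := Primrec.snd.comp (Primrec.fst.comp Primrec.fst)
    have e4 : Primrec fun p : ((((List Bool × (List Bool × ℕ × ℕ)) × ℕ) × List Bool) × ℕ) × ℕ =>
        p.1.2 := Primrec.snd.comp Primrec.fst
    refine PrimrecPred.not (PrimrecPred.and ?_ (PrimrecPred.and ?_ (PrimrecPred.and ?_ ?_)))
    · exact primrec_prefix.comp (Primrec.fst.comp e2) e3
    · exact Primrec.nat_le.comp (Primrec.fst.comp (Primrec.snd.comp e2)) e4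
    · exact PrimrecPred.not (Primrec.eq.comp Primrec.snd (Primrec.snd.comp (Primrec.snd.comp e2)))
    · exact hq.comp (e3.pair ((Primrec.encode.comp (Primrec.list_take.comp e4 e1)).pair
        Primrec.snd)) (Primrec.list_length.comp e1)

open Classical in
/-- the learner -/
noncomputable def lrn (a : ℕ → List Bool) (q : List Bool × ℕ × ℕ → ℕ → Prop)
    (x : List Bool) : ℕ :=
  ((((List.range (x.length + 1)).filterMap fun c =>
    (decode (α := List Bool × ℕ × ℕ) c).bind fun z =>
      if good a q x z then some z.2.2 else none).head?).getD 0)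

theorem primrec_lrn {a : ℕ → List Bool} (ha : Primrec a) {q : List Bool × ℕ × ℕ → ℕ → Prop}
    (hq : PrimrecRel q) : Primrec (lrn a q) := by
  classical
  unfold lrn
  refine Primrec.option_getD.comp (Primrec.list_head?.comp (Primrec.listFilterMap
    (Primrec.list_range.comp (Primrec.succ.comp Primrec.list_length)) ?_)) (Primrec.const 0)
  refine Primrec.option_bind (Primrec.decode.comp Primrec.snd) ?_
  refine Primrec.ite ?_ (Primrec.option_some.comp (Primrec.snd.comp (Primrec.snd.comp
    Primrec.snd))) (Primrec.const none)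
  exact (primrec_good ha hq).comp (Primrec.fst.comp Primrec.fst) Primrec.snd

end learner

/-- A limit computable 1-generic oracle is low for EX-learning of reals. -/
theorem lowReals_of {A : ℕ → Bool} {a : ℕ → List Bool} (ha : Primrec a)
    (happ : ∀ n, ∃ N, ∀ t, N ≤ t → pre A n <+: a t)
    (hgen : ∀ S : List Bool → Prop, REPred S →
      ∃ n, S (pre A n) ∨ ∀ τ, pre A n <+: τ → ¬ S τ) : LowReals A := by
  classical
  rintro C hC ⟨L, hL, hLC⟩
  obtain ⟨G, hG, mG, eG⟩ := Helper227.recIn_graph (A := A) hL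
  have key : ∀ (x : List Bool) (m : ℕ), m = L x ↔ ∃ s, G (pre A s, encode x, m) := by
    intro x m
    have h := eG (encode x) m
    have h2 : (m ∈ (Part.bind (↑(decode (α := List Bool) (encode x))) fun a =>
        (Part.some (L a)).map encode)) ↔ m = L x := by
      simp [encodek]
    rw [← h2]
    exact h
  obtain ⟨q, hq, mq, eq⟩ := hG
  refine ⟨lrn a q, (primrec_lrn ha hq).to_comp, fun Z hZ => ?_⟩
  obtain ⟨e0, ⟨N0, hN0⟩, hidx⟩ := hLC Z hZ
  refine ⟨e0, ?_, hidx⟩
  -- limit predicate
  let Tr : List Bool × ℕ × ℕ → Prop := fun z =>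
    z.1 = pre A z.1.length ∧ ∀ τ, z.1 <+: τ → ∀ j, z.2.1 ≤ j → ∀ m, m ≠ z.2.2 →
      ¬ G (τ, encode (pre Z j), m)
  -- a correct triple exists
  have hpreZ : Computable (fun n => pre Z n) := by
    have h1 : Computable (fun n => (List.range n).map Z) := by
      have h2 : Computable (fun n => (Nat.rec ([] : List Bool)
          (fun k (l : List Bool) => l ++ [Z k]) n : List Bool)) := by
        refine Computable.nat_rec (f := fun n : ℕ => n) (g := fun _ => ([] : List Bool))
          (h := fun _ p => p.2 ++ [Z p.1]) Computable.id (Computable.const _) ?_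
        exact (Computable.list_append.comp (Computable.snd.comp Computable.snd)
          (Computable.list_cons.comp ((hC Z hZ).comp (Computable.fst.comp Computable.snd))
            (Computable.const [])))
      refine h2.of_eq fun n => ?_
      induction n with
      | zero => rfl
      | succ n ih =>
        simp only [ih, List.range_succ, List.map_append, List.map_cons, List.map_nil]
    exact h1
  have hex : ∃ z, Tr z ∧ True := by
    have hS : REPred (fun τ : List Bool => ∃ j : ℕ, ∃ m : ℕ, (N0 ≤ j ∧ m ≠ e0) ∧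
        G (τ, encode (pre Z j), m)) := by
      have hG' : S1 G := ⟨q, hq, mq, eq⟩
      refine (S1.ex (p := fun (τ : List Bool) (j : ℕ) => ∃ m : ℕ, (N0 ≤ j ∧ m ≠ e0) ∧
        G (τ, encode (pre Z j), m)) (S1.ex (p := fun (x : List Bool × ℕ) (m : ℕ) =>
          (N0 ≤ x.2 ∧ m ≠ e0) ∧ G (x.1, encode (pre Z x.2), m))
          (S1.and (p := fun x : (List Bool × ℕ) × ℕ => N0 ≤ x.1.2 ∧ x.2 ≠ e0)
            (q := fun x : (List Bool × ℕ) × ℕ => G (x.1.1, encode (pre Z x.1.2), x.2))
            (S1.of_prim ?_) ?_))).re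
      · exact PrimrecPred.and
          (Primrec.nat_le.comp (Primrec.const N0) (Primrec.snd.comp Primrec.fst))
          (PrimrecPred.not (Primrec.eq.comp Primrec.snd (Primrec.const e0)))
      · exact S1.comp_computable (f := fun x : (List Bool × ℕ) × ℕ =>
          (x.1.1, encode (pre Z x.1.2), x.2)) hG' ((Computable.fst.comp Computable.fst).pair
          ((Computable.encode.comp (hpreZ.comp (Computable.snd.comp Computable.fst))).pair
            Computable.snd))
    obtain ⟨n, hn | hn⟩ := hgen _ hS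
    · obtain ⟨j, m, ⟨hj, hm⟩, hg⟩ := hn
      exact absurd (((key _ _).2 ⟨n, hg⟩).trans (hN0 j hj)) hm
    · refine ⟨(pre A n, N0, e0), ⟨?_, ?_⟩, trivial⟩
      · simp only [length_pre]
      · intro τ hτ j hj m hm hg
        exact hn τ hτ ⟨j, m, ⟨hj, hm⟩, hg⟩
  -- correct triples give the right answer
  have hval : ∀ z, Tr z → z.2.2 = e0 := by
    intro z hz
    obtain ⟨s, hs⟩ := (key (pre Z (max N0 z.2.1)) _).1 rfl
    have h1 := mG _ (pre A (max s z.1.length)) _ _ (pre_prefix A (le_max_left _ _)) hs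
    have h2 : z.1 <+: pre A (max s z.1.length) := by
      rw [hz.1, length_pre]
      exact pre_prefix A (le_max_right _ _)
    by_contra hne
    rw [hN0 _ (le_max_left _ _)] at h1
    exact hz.2 _ h2 (max N0 z.2.1) (le_max_right _ _) e0 (Ne.symm hne) h1
  -- stabilisation
  have hstab : ∀ z, ∃ N, ∀ n, N ≤ n → (good a q (pre Z n) z ↔ Tr z) := by
    intro z
    by_cases hz : Tr z
    · obtain ⟨N, hN⟩ := happ z.1.length
      refine ⟨N, fun n hn => ⟨fun _ => hz, fun _ => ⟨?_, ?_⟩⟩⟩
      · have := hN n hn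
        rw [← hz.1] at this
        rwa [length_pre]
      · rintro c hc τ hτ j hj m hm ⟨h1, h2, h3, h4⟩
        rw [length_pre] at hj h4
        rw [take_pre _ _ _ (by omega)] at h4
        exact hz.2 τ h1 j h2 m h3 ((eq _).2 ⟨_, h4⟩)
    · by_cases h1 : z.1 = pre A z.1.length
      · have h2 : ∃ τ, z.1 <+: τ ∧ ∃ j, z.2.1 ≤ j ∧ ∃ m, m ≠ z.2.2 ∧
            G (τ, encode (pre Z j), m) := by
          by_contra hcon
          push Not at hcon
          exact hz ⟨h1, fun τ hτ j hj m hm hg => hcon τ hτ j hj m hm hg⟩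
        obtain ⟨τ, hτ, j, hj, m, hm, hg⟩ := h2
        obtain ⟨t, ht⟩ := (eq _).1 hg
        refine ⟨encode τ + j + m + t, fun n hn => ⟨fun hgd => ?_, fun h => absurd h hz⟩⟩
        exfalso
        have h3 := hgd.2 (encode τ) (by rw [length_pre]; omega) τ (by simp) j
          (by rw [length_pre]; omega) m (by rw [length_pre]; omega)
        refine h3 ⟨hτ, hj, hm, ?_⟩
        rw [length_pre, take_pre _ _ _ (by omega)]
        exact mq _ _ _ (by omega) ht
      · obtain ⟨N, hN⟩ := happ z.1.length
        refine ⟨N, fun n hn => ⟨fun hgd => ?_, fun h => absurd h hz⟩⟩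
        exfalso
        have h2 := hN n hn
        have h3 := hgd.1
        rw [length_pre] at h3
        refine h1 ?_
        rw [List.prefix_iff_eq_take] at h2 h3
        rw [length_pre] at h2
        exact h3.trans h2.symm
  obtain ⟨z0, hz0, -⟩ := hex
  obtain ⟨c, hc, N, hN⟩ := head_lim
    (fun n c => (decode (α := List Bool × ℕ × ℕ) c).bind fun z =>
      if good a q (pre Z n) z then some z.2.2 else none)
    (fun c => (decode (α := List Bool × ℕ × ℕ) c).bind fun z =>
      if Tr z then some z.2.2 else none)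
    (by
      intro c
      cases hd : decode (α := List Bool × ℕ × ℕ) c with
      | none => exact ⟨0, fun _ _ => rfl⟩
      | some z =>
        obtain ⟨N, hN⟩ := hstab z
        refine ⟨N, fun n hn => ?_⟩
        simp only [Option.bind_some]
        by_cases hz : Tr z
        · rw [if_pos hz, if_pos ((hN n hn).2 hz)]
        · rw [if_neg hz, if_neg (fun h => hz ((hN n hn).1 h))])
    ⟨encode z0, by simp [hz0]⟩
  refine ⟨N, fun n hn => ?_⟩
  unfold lrn
  rw [length_pre, hN n hn]
  cases hd : decode (α := List Bool × ℕ × ℕ) c with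
  | none => simp [hd] at hc
  | some z =>
    simp only [hd, Option.bind_some] at hc ⊢
    by_cases hz : Tr z
    · rw [if_pos hz]
      simpa using hval z hz
    · rw [if_neg hz] at hc
      simp at hc

end Pool.Agent.V7H75.EX
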