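import Pool.Agent.V7H75.EX.Mea

set_option autoImplicit false

namespace Pool.Agent.V7H75.EX

open Encodable MeasureTheory
open scoped ENNReal
open Pool.Agent.Helper227 (S1 lam allStr)

/-- a fixed computable choice of indices -/
noncomputable def idx : List Bool → ℕ := exists_idx.choose

theorem primrec_idx : Primrec idx := exists_idx.choose_spec.1

theorem idx_spec (w : List Bool) : IsMeasIndex (idx w) (lw w) := exists_idx.choose_spec.2 w

/-- valid entries of the oracle -/
def vA (k : ℕ) (w : List Bool) : Prop :=
  u k <+: w ∧ A (encode w) = true ∧ ones (pre A (encode w)) + k + 4 ≤ w.length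

theorem valid_pre {n k : ℕ} {w : List Bool} (h : encode w < n) :
    valid (pre A n) k w ↔ vA k w := by
  unfold valid vA
  have h1 : (pre A n)[encode w]? = some (A (encode w)) := Helper227.pre_getElem? A n _ h
  rw [h1, take_pre A n _ h.le]
  simp

theorem encode_take_le (w : List Bool) (j : ℕ) : encode (w.take j) ≤ encode w := by
  induction w generalizing j with
  | nil => simp
  | cons b w ih =>
    cases j with
    | zero => simp
    | succ j =>
      rw [List.take_succ_cons, encode_list_cons, encode_list_cons]
      refine Nat.succ_le_succ ?_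
      rcases (ih j).eq_or_lt with h | h
      · rw [h]
      · exact (Nat.pair_lt_pair_right _ h).le

theorem encode_prefix_le {v w : List Bool} (h : v <+: w) : encode v ≤ encode w := by
  rw [List.prefix_iff_eq_take] at h
  rw [h]
  exact encode_take_le _ _

theorem length_le_encode (w : List Bool) : w.length ≤ encode w := by
  induction w with
  | nil => simp
  | cons b w ih =>
    rw [encode_list_cons, List.length_cons]
    exact Nat.succ_le_succ (ih.trans (Nat.right_le_pair _ _))

theorem u_get_lt {k i : ℕ} (h : i < k) : (u k)[i]? = some false := by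
  unfold u
  rw [List.getElem?_append_left (by simpa using h)]
  simp [h]

theorem u_get (k : ℕ) : (u k)[k]? = some true := by
  unfold u
  rw [List.getElem?_append_right (by simp)]
  simp

theorem u_unique {k k' : ℕ} {x : List Bool} (h : u k <+: x) (h' : u k' <+: x) : k = k' := by
  by_contra hne
  rcases lt_or_gt_of_ne hne with h1 | h1
  · have h2 : x[k]? = some true := by
      rw [getElem?_prefix h (by rw [length_u]; omega), u_get]
    rw [getElem?_prefix h' (by rw [length_u]; omega), u_get_lt h1] at h2
    simp at h2
  · have h2 : x[k']? = some true := by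
      rw [getElem?_prefix h' (by rw [length_u]; omega), u_get]
    rw [getElem?_prefix h (by rw [length_u]; omega), u_get_lt h1] at h2
    simp at h2

/-! ### The oracle learner -/

open Classical in
noncomputable def LL (y : List Bool × List Bool) : ℕ :=
  ((((List.range (y.2.length + 1)).filterMap fun j =>
      if ∃ k < y.2.length + 1, valid y.1 k (y.2.take j) then some (idx (y.2.take j)) else none) ++
    ((List.range (y.2.length + 1)).filterMap fun k =>
      if u k <+: y.2 then some (idx (u k)) else none)).head?).getD 0

theorem primrec_LL : Primrec LL := by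
  classical
  unfold LL
  have hr : Primrec fun y : List Bool × List Bool => List.range (y.2.length + 1) :=
    Primrec.list_range.comp (Primrec.succ.comp (Primrec.list_length.comp Primrec.snd))
  refine Primrec.option_getD.comp (Primrec.list_head?.comp (Primrec.list_append.comp
    (Primrec.listFilterMap hr ?_) (Primrec.listFilterMap hr ?_))) (Primrec.const 0)
  · have ht : Primrec fun p : (List Bool × List Bool) × ℕ => p.1.2.take p.2 :=
      Primrec.list_take.comp Primrec.snd (Primrec.snd.comp Primrec.fst)
    refine Primrec.ite ?_ (Primrec.option_some.comp (primrec_idx.comp ht)) (Primrec.const none)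
    refine Helper227.PP.ex_lt (f := fun p : (List Bool × List Bool) × ℕ => p.1.2.length + 1)
      (p := fun p k => valid p.1.1 k (p.1.2.take p.2)) ?_
      (Primrec.succ.comp (Primrec.list_length.comp (Primrec.snd.comp Primrec.fst)))
    exact primrec_valid.comp ((Primrec.fst.comp (Primrec.fst.comp Primrec.fst)).pair
      (Primrec.snd.pair (ht.comp Primrec.fst)))
  · refine Primrec.ite ?_ (Primrec.option_some.comp (primrec_idx.comp (primrec_u.comp
      Primrec.snd))) (Primrec.const none)
    exact primrec_prefix.comp (primrec_u.comp Primrec.snd) (Primrec.snd.comp Primrec.fst)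

/-- the learner with oracle `A` -/
noncomputable def LA (x : List Bool) : ℕ := LL (pre A (encode x + 1), x)

theorem computableIn_LA : ComputableIn {chi A} LA := by
  have hG : S1 fun z : List Bool × ℕ × ℕ => ∃ x : List Bool,
      decode (α := List Bool) z.2.1 = some x ∧ encode x + 1 ≤ z.1.length ∧
        LL (z.1.take (encode x + 1), x) = z.2.2 := by
    refine S1.ex (p := fun (z : List Bool × ℕ × ℕ) (x : List Bool) =>
      decode (α := List Bool) z.2.1 = some x ∧ encode x + 1 ≤ z.1.length ∧
        LL (z.1.take (encode x + 1), x) = z.2.2) (S1.of_prim ?_)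
    have e1 : Primrec fun p : (List Bool × ℕ × ℕ) × List Bool => encode p.2 + 1 :=
      Primrec.succ.comp (Primrec.encode.comp Primrec.snd)
    refine PrimrecPred.and ?_ (PrimrecPred.and ?_ ?_)
    · exact Primrec.eq.comp (Primrec.decode.comp (Primrec.fst.comp (Primrec.snd.comp
        Primrec.fst))) (Primrec.option_some.comp Primrec.snd)
    · exact Primrec.nat_le.comp e1 (Primrec.list_length.comp (Primrec.fst.comp Primrec.fst))
    · exact Primrec.eq.comp (primrec_LL.comp ((Primrec.list_take.comp e1 (Primrec.fst.comp
        Primrec.fst)).pair Primrec.snd)) (Primrec.snd.comp (Primrec.snd.comp Primrec.fst))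
  have h := Helper227.recIn_of_graph (A := A)
    (f := fun n => Part.bind (decode (α := List Bool) n) fun x => (Part.some (LA x)).map encode)
    hG (by
      intro n m
      constructor
      · intro hm
        obtain ⟨x, hx, hm⟩ := Part.mem_bind_iff.1 hm
        rw [Part.mem_coe] at hx
        rw [Part.map_some, Part.mem_some_iff] at hm
        refine ⟨encode x + 1, x, hx, by simp, ?_⟩
        rw [Helper227.take_pre _ _ _ le_rfl]
        exact hm.symm
      · rintro ⟨s, x, hx, hs, hm⟩
        refine Part.mem_bind_iff.2 ⟨x, Part.mem_coe.2 hx, ?_⟩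
        rw [Part.map_some, Part.mem_some_iff]
        rw [Helper227.length_pre] at hs
        rw [Helper227.take_pre _ _ _ hs] at hm
        exact hm.symm)
  exact h

theorem head_range {β : Type*} {n j : ℕ} (f : ℕ → Option β) {y : β} (hj : j < n)
    (h0 : ∀ i < j, f i = none) (h1 : f j = some y) :
    ((List.range n).filterMap f).head? = some y := by
  obtain ⟨d, rfl⟩ : ∃ d, n = j + (d + 1) := ⟨n - j - 1, by omega⟩
  rw [List.range_add, List.range_succ_eq_map, List.map_cons, List.filterMap_append]
  have h2 : (List.range j).filterMap f = [] := by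
    rw [List.filterMap_eq_nil_iff]
    intro i hi
    exact h0 i (List.mem_range.1 hi)
  rw [h2, List.nil_append, Nat.add_zero, List.filterMap_cons, h1]
  rfl

theorem u_cyl {k k' : ℕ} {X : ℕ → Bool} {w : List Bool} (hX : X ∈ cyl (u k)) (h : u k' <+: w)
    (hw : X ∈ cyl w) : k' = k := by
  have h1 : X ∈ cyl (u k') := cyl_subset h hw
  rw [mem_cyl_iff] at hX h1
  have h2 : u k <+: pre X (max (u k).length (u k').length) := by
    conv_lhs => rw [← hX]
    exact pre_prefix X (le_max_left _ _)
  have h3 : u k' <+: pre X (max (u k).length (u k').length) := by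
    conv_lhs => rw [← h1]
    exact pre_prefix X (le_max_right _ _)
  exact (u_unique h2 h3).symm

theorem mem_cyl_pre (X : ℕ → Bool) (n : ℕ) : X ∈ cyl (pre X n) := Helper227.mem_cyl_pre X n

theorem test_iff {k : ℕ} {X : ℕ → Bool} (hX : X ∈ cyl (u k)) {n j : ℕ} (hj : j ≤ n) (hn : k ≤ n) :
    (∃ k' < n + 1, valid (pre A (encode (pre X n) + 1)) k' ((pre X n).take j)) ↔
      vA k (pre X j) := by
  have h1 : encode ((pre X n).take j) < encode (pre X n) + 1 :=
    Nat.lt_succ_of_le (encode_take_le _ _)
  simp only [valid_pre h1]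
  rw [take_pre X n j hj]
  constructor
  · rintro ⟨k', _, h⟩
    have := u_cyl hX h.1 (mem_cyl_pre X j)
    rwa [this] at h
  · intro h
    exact ⟨k, by omega, h⟩

theorem conv1 {k : ℕ} {X : ℕ → Bool} {w : List Bool} (hX : X ∈ cyl (u k)) (hw : vA k w)
    (hXw : X ∈ cyl w) (hmin : ∀ w', vA k w' → X ∈ cyl w' → w.length ≤ w'.length) :
    ConvTo LA X (idx w) := by
  classical
  refine ⟨max k w.length, fun n hn => ?_⟩
  have hkn : k ≤ n := le_trans (le_max_left _ _) hn
  have hwn : w.length ≤ n := le_trans (le_max_right _ _) hn
  have hwp := mem_cyl_iff.1 hXw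
  unfold LA LL
  simp only [length_pre]
  have h1 := head_range (n := n + 1) (j := w.length) (fun j =>
    if ∃ k' < n + 1, valid (pre A (encode (pre X n) + 1)) k' ((pre X n).take j) then
      some (idx ((pre X n).take j)) else none) (y := idx w) (by omega)
    (fun i hi => by
      rw [if_neg]
      rw [test_iff hX (by omega) hkn]
      intro h
      have := hmin _ h (mem_cyl_pre X i)
      rw [length_pre] at this
      omega)
    (by
      have h2 : (pre X n).take w.length = w := by rw [take_pre X n _ hwn, hwp]
      rw [if_pos, h2]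
      rw [test_iff hX hwn hkn, hwp]
      exact hw)
  rw [List.head?_append, h1]
  rfl

theorem conv2 {k : ℕ} {X : ℕ → Bool} (hX : X ∈ cyl (u k)) (hno : ∀ w, vA k w → X ∉ cyl w) :
    ConvTo LA X (idx (u k)) := by
  classical
  refine ⟨k + 1, fun n hn => ?_⟩
  unfold LA LL
  simp only [length_pre]
  have h1 : ((List.range (n + 1)).filterMap fun j =>
    if ∃ k' < n + 1, valid (pre A (encode (pre X n) + 1)) k' ((pre X n).take j) then
      some (idx ((pre X n).take j)) else none) = [] := by
    rw [List.filterMap_eq_nil_iff]
    intro j hj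
    rw [List.mem_range] at hj
    rw [if_neg]
    rw [test_iff hX (by omega) (by omega)]
    intro h
    exact hno _ h (mem_cyl_pre X j)
  have h2 := head_range (n := n + 1) (j := k) (fun k' =>
    if u k' <+: pre X n then some (idx (u k')) else none) (y := idx (u k)) (by omega)
    (fun i hi => by
      rw [if_neg]
      intro h
      have := u_cyl hX h (mem_cyl_pre X n)
      omega)
    (by
      rw [if_pos]
      have h3 := mem_cyl_iff.1 hX
      rw [length_u] at h3
      conv_lhs => rw [← h3]
      exact pre_prefix X hn)
  rw [h1, List.nil_append, h2]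
  rfl

/-! ### The class of measures -/

/-- a successful entry -/
def Succ (k : ℕ) (w : List Bool) : Prop :=
  vA k w ∧ (∀ w', w' <+: w → vA k w' → w' = w) ∧ ∃ X, X ∈ cyl w ∧ MLRandom lam X ∧
    ∀ L, IsCode k L → ∀ e, ConvTo L X e → ¬ IsMeasIndex e (lw w)

open Classical in
/-- the strings for `k` -/
noncomputable def Wk (k : ℕ) : Set (List Bool) :=
  if h : ∃ w, Succ k w then {h.choose} else {w | w = u k ∨ vA k w}

/-- the class of measures -/
def V : Set (Measure (ℕ → Bool)) := {μ | ∃ k, ∃ w ∈ Wk k, μ = lw w}

theorem u_le_of_mem {k : ℕ} {w : List Bool} (hw : w ∈ Wk k) : u k <+: w := by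
  unfold Wk at hw
  split_ifs at hw with h
  · rw [Set.mem_singleton_iff] at hw
    rw [hw]
    exact h.choose_spec.1.1
  · rcases hw with rfl | hw
    · exact List.prefix_refl _
    · exact hw.1

theorem learns_LA : LearnsMeas LA V := by
  classical
  rintro μ ⟨k, w, hw, rfl⟩ X hX
  obtain ⟨hXw, hXr⟩ := mlrandom_lw.1 hX
  have hXk : X ∈ cyl (u k) := cyl_subset (u_le_of_mem hw) hXw
  by_cases hv : ∃ w', vA k w' ∧ X ∈ cyl w'
  · have hv' : ∃ n, ∃ w', (vA k w' ∧ X ∈ cyl w') ∧ w'.length = n := by
      obtain ⟨w', h⟩ := hv
      exact ⟨_, w', h, rfl⟩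
    obtain ⟨w', ⟨h1, h2⟩, h3⟩ := Nat.find_spec hv'
    have hmin : ∀ w'', vA k w'' → X ∈ cyl w'' → w'.length ≤ w''.length := by
      intro w'' h4 h5
      rw [h3]
      exact Nat.find_min' hv' ⟨w'', ⟨h4, h5⟩, rfl⟩
    refine ⟨idx w', conv1 hXk h1 h2 hmin, lw w', ⟨k, w', ?_, rfl⟩, idx_spec w',
      mlrandom_lw.2 ⟨h2, hXr⟩⟩
    unfold Wk at hw ⊢
    split_ifs at hw ⊢ with h
    · rw [Set.mem_singleton_iff] at hw ⊢
      rw [← hw]
      have h6 := h.choose_spec
      rw [← hw] at h6
      exact h6.2.1 w' (mem_cyl_trans h2 hXw (hmin w h6.1 hXw)) h1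
    · exact Or.inr h1
  · push Not at hv
    refine ⟨idx (u k), conv2 hXk hv, lw (u k), ⟨k, u k, ?_, rfl⟩, idx_spec _,
      mlrandom_lw.2 ⟨hXk, hXr⟩⟩
    unfold Wk at hw ⊢
    split_ifs at hw ⊢ with h
    · exfalso
      rw [Set.mem_singleton_iff] at hw
      have h6 := h.choose_spec
      rw [← hw] at h6
      exact hv w h6.1 hXw
    · exact Or.inl rfl

/-! ### Success of the strategies -/

theorem length_pad {σ : List Bool} {n : ℕ} (h : σ.length ≤ n) : (pad σ n).length = n := by
  simp [pad]
  omega

theorem ones_append (l l' : List Bool) : ones (l ++ l') = ones l + ones l' := by simp [ones]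

theorem ones_false (n : ℕ) : ones ((List.range n).map fun _ => false) = 0 := by
  simp [ones]

theorem ones_pad (σ : List Bool) (n : ℕ) : ones (pad σ n) = ones σ := by
  rw [pad, ones_append, ones_false, add_zero]

theorem ones_le (σ : List Bool) : ones σ ≤ σ.length := List.length_filter_le _ _

theorem pad_get {σ : List Bool} {n i : ℕ} (h1 : σ.length ≤ i) (h2 : i < n) :
    (pad σ n)[i]? = some false := by
  unfold pad
  rw [List.getElem?_append_right h1, List.getElem?_map, List.getElem?_range (by omega)]
  rfl

theorem succ_of_strategy {k N : ℕ} {σ : List Bool} (hσ : pre A σ.length = σ)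
    {w w' : List Bool} {e n : ℕ} (hc : (w, w', e, n) ∈ cands (k, N, σ))
    (hcond : condK k σ (w, w', e, n)) (h1 : ¬ R (w, e, n, k)) (h2 : ¬ R (w', e, n, k))
    (hpre : pre A (put (put σ w) w').length = put (put σ w) w')
    {L : List Bool → ℕ} (hL : IsCode k L) : ∃ w, Succ k w := by
  classical
  obtain ⟨hw, hw', -, -⟩ := mem_cands.1 hc
  obtain ⟨c1, c2, c3, c4, c5⟩ := hcond
  simp only at c1 c2 c3 c4 c5
  have l0 : σ.length ≤ encode w := by
    have := length_le_encode w
    rw [hw, len] at this
    omega
  have l1 : (put σ w).length = encode w + 1 := by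
    unfold put
    rw [List.length_append, length_pad l0]
    rfl
  have l2 : (put (put σ w) w').length = encode w' + 1 := by
    unfold put at l1 ⊢
    rw [List.length_append, length_pad (by rw [l1]; omega)]
    rfl
  have hget : ∀ i, i < encode w' + 1 → (put (put σ w) w')[i]? = some (A i) := by
    intro i hi
    rw [← hpre]
    exact Helper227.pre_getElem? A _ _ (by rw [l2]; exact hi)
  have p1 : pre A (encode w) = pad σ (encode w) := by
    have h3 := take_pre A (put (put σ w) w').length (encode w) (by rw [l2]; omega)
    rw [hpre] at h3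
    rw [← h3]
    unfold put
    rw [pad, List.append_assoc, List.append_assoc]
    rw [List.take_append_of_le_length (by rw [length_pad l0])]
    rw [List.take_of_length_le (by rw [length_pad l0])]
  have p2 : pre A (encode w') = pad (put σ w) (encode w') := by
    have h3 := take_pre A (put (put σ w) w').length (encode w') (by rw [l2]; omega)
    rw [hpre] at h3
    rw [← h3]
    conv_lhs => unfold put
    have h4 : (pad (put σ w) (encode w')).length = encode w' := length_pad (by rw [l1]; omega)
    rw [show pad (pad σ (encode w) ++ [true]) (encode w') = pad (put σ w) (encode w') from rfl]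
    rw [List.take_append_of_le_length (by rw [h4])]
    rw [List.take_of_length_le (by rw [h4])]
  have hAw : A (encode w) = true := by
    have h3 := hget (encode w) (by omega)
    have h4 : (put (put σ w) w')[encode w]? = (put σ w)[encode w]? :=
      getElem?_prefix (prefix_put _ _) (by rw [l1]; omega)
    rw [h4] at h3
    have h5 : (put σ w)[encode w]? = some true := by
      unfold put
      rw [List.getElem?_append_right (by rw [length_pad l0]), length_pad l0]
      simp
    rw [h5] at h3
    exact (Option.some.inj h3).symm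
  have hAw' : A (encode w') = true := by
    have h3 := hget (encode w') (by omega)
    have h5 : (put (put σ w) w')[encode w']? = some true := by
      conv_lhs => unfold put
      have h4 : (pad (pad σ (encode w) ++ [true]) (encode w')).length = encode w' :=
        length_pad (by
          have : (pad σ (encode w) ++ [true]).length = encode w + 1 := l1
          rw [this]
          omega)
      rw [List.getElem?_append_right (by rw [h4]), h4]
      simp
    rw [h5] at h3
    exact (Option.some.inj h3).symm
  have hfalse : ∀ i, σ.length ≤ i → i < encode w' → i ≠ encode w → A i = false := by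
    intro i hi1 hi2 hi3
    rcases lt_or_gt_of_ne hi3 with h | h
    · have h3 : (pre A (encode w))[i]? = some (A i) := Helper227.pre_getElem? A _ _ h
      rw [p1, pad_get hi1 h] at h3
      exact (Option.some.inj h3).symm
    · have h3 : (pre A (encode w'))[i]? = some (A i) := Helper227.pre_getElem? A _ _ hi2
      rw [p2, pad_get (by rw [l1]; omega) hi2] at h3
      exact (Option.some.inj h3).symm
  have hones := ones_le σ
  have v1 : vA k w := by
    refine ⟨c1, hAw, ?_⟩
    rw [p1, ones_pad, hw, len]
    omega
  have v2 : vA k w' := by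
    refine ⟨c2, hAw', ?_⟩
    rw [p2, ones_pad]
    unfold put
    rw [ones_append, ones_pad, hw', len]
    have : ones [true] = 1 := rfl
    omega
  have hne : w ≠ w' := fun h => by rw [h] at c3; exact lt_irrefl _ c3
  have hsmall : ∀ v w'', w'' <+: v → (∀ j < v.length + 1, ¬ valid σ k (v.take j)) →
      vA k w'' → σ.length ≤ encode w'' := by
    intro v w'' h3 h4 h5
    by_contra h6
    rw [not_le] at h6
    refine h4 w''.length (Nat.lt_succ_of_le h3.length_le) ?_
    rw [← List.prefix_iff_eq_take.1 h3]
    rw [← hσ, valid_pre h6]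
    exact h5
  have m1 : ∀ w'', w'' <+: w → vA k w'' → w'' = w := by
    intro w'' h3 h4
    by_contra h5
    have h6 : encode w'' < encode w :=
      lt_of_le_of_ne (encode_prefix_le h3) fun h => h5 (encode_injective h)
    have h7 := hfalse _ (hsmall w w'' h3 c4 h4) (by omega) (by omega)
    rw [h4.2.1] at h7
    simp at h7
  have m2 : ∀ w'', w'' <+: w' → vA k w'' → w'' = w' := by
    intro w'' h3 h4
    by_contra h5
    have h6 : encode w'' < encode w' :=
      lt_of_le_of_ne (encode_prefix_le h3) fun h => h5 (encode_injective h)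
    have h8 : encode w'' ≠ encode w := by
      intro h
      rw [encode_injective h] at h3
      exact hne (h3.eq_of_length (by rw [hw, hw']))
    have h7 := hfalse _ (hsmall w' w'' h3 c5 h4) h6 h8
    rw [h4.2.1] at h7
    simp at h7
  have hnp : ¬ w <+: w' := fun h => hne (h.eq_of_length (by rw [hw, hw']))
  have hnp' : ¬ w' <+: w := fun h => hne (h.eq_of_length (by rw [hw, hw'])).symm
  have hfin : ∀ v : List Bool, vA k v → (∀ w'', w'' <+: v → vA k w'' → w'' = v) →
      ¬ R (v, e, n, k) → ¬ IsMeasIndex e (lw v) → ∃ w, Succ k w := by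
    intro v a1 a2 a3 a4
    obtain ⟨X, hX, hXr⟩ := exists_random (not_R_pos hL a3)
    refine ⟨v, a1, a2, X, hX.1, hXr, ?_⟩
    rintro L' hL' e' ⟨M, hM⟩ hidx
    have h3 : L' = L := by
      funext x
      exact (hL x _).1 ((hL' x _).2 rfl)
    rw [h3] at hM
    have h4 : e' = e := by
      rw [← hM (max M n) (le_max_left _ _), hX.2 (max M n) (le_max_right _ _)]
    rw [h4] at hidx
    exact a4 hidx
  by_cases hi : IsMeasIndex e (lw w)
  · exact hfin w' v2 m2 h2 fun h => index_ne hnp hnp' hi h
  · exact hfin w v1 m1 h1 hi

theorem not_learnable {L : List Bool → ℕ} (hL : Computable L) : ¬ LearnsMeas L V := by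
  classical
  intro hlearn
  obtain ⟨k, hk⟩ := exists_isCode hL
  by_cases hs : ∃ w, Succ k w
  · have h1 := hs.choose_spec
    have hW : Wk k = {hs.choose} := by
      unfold Wk
      rw [dif_pos hs]
    obtain ⟨hv, -, X, hX, hXr, hbad⟩ := h1
    obtain ⟨e, he, ν, ⟨k', w', hw', rfl⟩, hidx, hνr⟩ := hlearn (lw hs.choose)
      ⟨k, _, by rw [hW]; rfl, rfl⟩ X (mlrandom_lw.2 ⟨hX, hXr⟩)
    have hXw' := (mlrandom_lw.1 hνr).1
    have hXk : X ∈ cyl (u k) := cyl_subset hv.1 hX
    have hkk := u_cyl hXk (u_le_of_mem hw') hXw'
    subst hkk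
    rw [hW, Set.mem_singleton_iff] at hw'
    rw [hw'] at hidx
    exact hbad L hk e he hidx
  · have hW : u k ∈ Wk k := by
      unfold Wk
      rw [dif_neg hs]
      exact Or.inl rfl
    obtain ⟨X, hX, hXr, hdiv⟩ := exists_div hk (fun N => by
      obtain ⟨σ, hσ, h | h⟩ := A_strategy k N
      · obtain ⟨⟨w, w', e, n⟩, c1, c2, c3, c4, c5⟩ := h
        exact absurd (succ_of_strategy hσ c1 c2 c3 c4 c5 hk) hs
      · exact ⟨σ, h⟩)
    obtain ⟨e, he, -⟩ := hlearn (lw (u k)) ⟨k, _, hW, rfl⟩ X (mlrandom_lw.2 ⟨hX, hXr⟩)
    exact hdiv e he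

/-- There is an oracle that is low for EX-learning of reals, but not low for EX-learning of
measures. -/
theorem main : LowReals A ∧ ¬ LowMeas A := by
  refine ⟨lowReals_of primrec_a a_lim A_generic, fun h => ?_⟩
  obtain ⟨L, hL, hlearn⟩ := h V (by
    rintro μ ⟨k, w, -, rfl⟩
    exact computableMeasure_lw w) ⟨LA, computableIn_LA, learns_LA⟩
  exact not_learnable hL hlearn

end Pool.Agent.V7H75.EX
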