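import Pool.Agent.V7H75.EX.Constr

set_option autoImplicit false

namespace Pool.Agent.V7H75.EX

open Encodable MeasureTheory
open scoped ENNReal
open Pool.Agent.Helper227 (S1 lam allStr)

/-- `L` is the total function with code `k` -/
def IsCode (k : ℕ) (L : List Bool → ℕ) : Prop := ∀ x v, Val k x v ↔ v = L x

theorem exists_isCode {L : List Bool → ℕ} (hL : Computable L) : ∃ k, IsCode k L := by
  obtain ⟨c, hc⟩ := Nat.Partrec.Code.exists_code.1 hL
  refine ⟨encode c, fun x v => ?_⟩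
  unfold Val
  rw [Denumerable.ofNat_encode, hc]
  simp [encodek]

/-- the reals of `[w]` on which `L` is constantly `e` from the prefix of length `n` on -/
def Gd (L : List Bool → ℕ) (w : List Bool) (e n : ℕ) : Set (ℕ → Bool) :=
  {X | X ∈ cyl w ∧ ∀ j, n ≤ j → L (pre X j) = e}

theorem bad_iff {k : ℕ} {L : List Bool → ℕ} (hk : IsCode k L) (w : List Bool) (e n : ℕ) :
    {X : ℕ → Bool | ∃ t, Pr (w, e, n, k) (Helper227.pre X t)} = (Gd L w e n)ᶜ := by
  ext X
  simp only [Set.mem_ofPred_eq, Set.mem_compl_iff, Gd, not_and, not_forall]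
  constructor
  · rintro ⟨t, h | h⟩ hX
    · exfalso
      refine h.2 ?_
      have h1 : w.length ≤ t := by simpa using h.1
      have h2 := mem_cyl_iff.1 hX
      change w <+: pre X t
      conv_lhs => rw [← h2]
      exact pre_prefix X h1
    · obtain ⟨h1, v, h2, h3⟩ := h
      refine ⟨t, by simpa using h1, fun h4 => h2 ?_⟩
      rw [(hk _ _).1 h3]
      exact h4
  · intro h
    by_cases hX : X ∈ cyl w
    · obtain ⟨j, hj, hne⟩ := h hX
      exact ⟨j, Or.inr ⟨by simpa using hj, L (pre X j), hne, (hk _ _).2 rfl⟩⟩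
    · refine ⟨w.length, Or.inl ⟨by simp, fun h1 => hX ?_⟩⟩
      rw [mem_cyl_iff]
      have h2 := List.prefix_iff_eq_take.1 h1
      rw [Helper227.take_pre _ _ _ le_rfl] at h2
      exact h2.symm

theorem measurableSet_Gd {k : ℕ} {L : List Bool → ℕ} (hk : IsCode k L) (w : List Bool) (e n : ℕ) :
    MeasurableSet (Gd L w e n) := by
  rw [← MeasurableSet.compl_iff, ← bad_iff hk]
  exact Helper227.measurableSet_open (fun _ x => Pr (w, e, n, k) x)

theorem frac (m : ℕ) : ((4 ^ m - 1 : ℕ) : ℝ≥0∞) / ((4 ^ m : ℕ) : ℝ≥0∞) + (1 / 4) ^ m = 1 := by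
  have h1 : ((4 ^ m : ℕ) : ℝ≥0∞) ≠ 0 := by
    have : (4 ^ m : ℕ) ≠ 0 := by positivity
    exact_mod_cast this
  have h2 : ((4 ^ m : ℕ) : ℝ≥0∞) ≠ ⊤ := ENNReal.natCast_ne_top _
  have h3 : ((1 / 4 : ℝ≥0∞)) ^ m = 1 / ((4 ^ m : ℕ) : ℝ≥0∞) := by
    push_cast
    rw [one_div, one_div, ENNReal.inv_pow]
  rw [h3, ENNReal.div_add_div_same]
  have h4 : ((4 ^ m - 1 : ℕ) : ℝ≥0∞) + 1 = ((4 ^ m : ℕ) : ℝ≥0∞) := by
    have : 4 ^ m - 1 + 1 = 4 ^ m := Nat.sub_add_cancel (Nat.one_le_pow _ _ (by norm_num))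
    exact_mod_cast this
  rw [h4, ENNReal.div_self h1 h2]

theorem not_R_pos {k : ℕ} {L : List Bool → ℕ} (hk : IsCode k L) {w : List Bool} {e n : ℕ}
    (h : ¬ R (w, e, n, k)) : 0 < lam (Gd L w e n) := by
  unfold R at h
  rw [bad_iff hk, not_lt] at h
  rw [pos_iff_ne_zero]
  intro h0
  have h1 := measure_add_measure_compl (μ := lam) (measurableSet_Gd hk w e n)
  rw [h0, zero_add, measure_univ] at h1
  rw [h1] at h
  have h2 := frac w.length
  have h3 : (1 : ℝ≥0∞) + (1 / 4) ^ w.length ≤ 1 + 0 := by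
    rw [add_zero]
    conv_rhs => rw [← h2]
    exact add_le_add_left h _
  have h4 : (1 / 4 : ℝ≥0∞) ^ w.length ≤ 0 :=
    (ENNReal.add_le_add_iff_left ENNReal.one_ne_top).1 h3
  have h5 : (1 / 4 : ℝ≥0∞) ^ w.length ≠ 0 := pow_ne_zero _ (by simp)
  exact h5 (le_antisymm h4 (zero_le))

theorem R_lt {k : ℕ} {L : List Bool → ℕ} (hk : IsCode k L) {w : List Bool} {e n : ℕ}
    (h : R (w, e, n, k)) : lam (Gd L w e n) < (1 / 4) ^ w.length := by
  unfold R at h
  rw [bad_iff hk] at h
  have h1 := measure_add_measure_compl (μ := lam) (measurableSet_Gd hk w e n)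
  rw [measure_univ] at h1
  have h2 := frac w.length
  by_contra hcon
  rw [not_lt] at hcon
  have h3 : ((4 ^ w.length - 1 : ℕ) : ℝ≥0∞) / ((4 ^ w.length : ℕ) : ℝ≥0∞) + (1 / 4) ^ w.length <
      lam (Gd L w e n)ᶜ + lam (Gd L w e n) := by
    refine ENNReal.add_lt_add_of_lt_of_le ?_ h hcon
    exact ENNReal.pow_ne_top (by simp)
  rw [h2, add_comm, h1] at h3
  exact lt_irrefl _ h3

/-- the union of the valid cylinders for `k` in `σ` -/
def T (k : ℕ) (σ : List Bool) : Set (ℕ → Bool) := {X | ∃ w, valid σ k w ∧ X ∈ cyl w}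

theorem ones_append_false (σ : List Bool) : ones (σ ++ [false]) = ones σ := by simp [ones]

theorem ones_append_true (σ : List Bool) : ones (σ ++ [true]) = ones σ + 1 := by simp [ones]

theorem valid_append {σ : List Bool} {b : Bool} {k : ℕ} {w : List Bool}
    (h : valid (σ ++ [b]) k w) : valid σ k w ∨
      (b = true ∧ encode w = σ.length ∧ ones σ + k + 4 ≤ w.length) := by
  obtain ⟨h1, h2, h3⟩ := h
  rcases lt_trichotomy (encode w) σ.length with h4 | h4 | h4
  · left
    rw [List.getElem?_append_left h4] at h2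
    rw [List.take_append_of_le_length h4.le] at h3
    exact ⟨h1, h2, h3⟩
  · right
    rw [h4] at h2 h3
    rw [List.take_append_of_le_length le_rfl, List.take_length] at h3
    simp at h2
    exact ⟨h2, h4, h3⟩
  · rw [List.getElem?_eq_none (by simp; omega)] at h2
    simp at h2

theorem lam_T_aux (k : ℕ) (σ : List Bool) :
    lam (T k σ) + (1 / 2) ^ (ones σ + k + 3) ≤ (1 / 2) ^ (k + 3) := by
  induction σ using List.reverseRecOn with
  | nil =>
    have h1 : T k [] = ∅ := by
      ext X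
      simp [T, valid]
    rw [h1, measure_empty, zero_add]
    simp [ones]
  | append_singleton σ b ih =>
    cases b with
    | false =>
      rw [ones_append_false]
      refine le_trans (add_le_add_left (measure_mono ?_) _) ih
      rintro X ⟨w, hw, hX⟩
      rcases valid_append hw with h | h
      · exact ⟨w, h, hX⟩
      · simp at h
    | true =>
      rw [ones_append_true]
      have h1 : T k (σ ++ [true]) ⊆ T k σ ∪ {X | ∃ w : List Bool, encode w = σ.length ∧
          ones σ + k + 4 ≤ w.length ∧ X ∈ cyl w} := by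
        rintro X ⟨w, hw, hX⟩
        rcases valid_append hw with h | ⟨-, h2, h3⟩
        · exact Or.inl ⟨w, h, hX⟩
        · exact Or.inr ⟨w, h2, h3, hX⟩
      have h2 : lam {X : ℕ → Bool | ∃ w : List Bool, encode w = σ.length ∧
          ones σ + k + 4 ≤ w.length ∧ X ∈ cyl w} ≤ (1 / 2) ^ (ones σ + k + 4) := by
        by_cases hex : ∃ w : List Bool, encode w = σ.length ∧ ones σ + k + 4 ≤ w.length
        · obtain ⟨w, hw1, hw2⟩ := hex
          refine le_trans (measure_mono (t := cyl w) ?_) ?_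
          · rintro X ⟨w', h3, _, h5⟩
            have : w' = w := encode_injective (h3.trans hw1.symm)
            rwa [this] at h5
          · rw [lam_cyl]
            exact pow_le_pow_right_of_le_one' (by simp) hw2
        · have : {X : ℕ → Bool | ∃ w : List Bool, encode w = σ.length ∧
              ones σ + k + 4 ≤ w.length ∧ X ∈ cyl w} = ∅ := by
            ext X
            simp only [Set.mem_ofPred_eq, Set.mem_empty_iff_false, iff_false]
            rintro ⟨w, h3, h4, _⟩
            exact hex ⟨w, h3, h4⟩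
          rw [this, measure_empty]
          exact zero_le
      calc lam (T k (σ ++ [true])) + (1 / 2) ^ (ones σ + 1 + k + 3)
          ≤ (lam (T k σ) + (1 / 2) ^ (ones σ + k + 4)) + (1 / 2) ^ (ones σ + 1 + k + 3) := by
            refine add_le_add_left ?_ _
            exact (measure_mono h1).trans ((measure_union_le _ _).trans (add_le_add_right h2 _))
        _ = lam (T k σ) + (1 / 2) ^ (ones σ + k + 3) := by
            rw [add_assoc]
            congr 1
            rw [show ones σ + 1 + k + 3 = ones σ + k + 3 + 1 by ring,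
              show ones σ + k + 4 = ones σ + k + 3 + 1 by ring, pow_succ, ← mul_add]
            have : (1 / 2 : ℝ≥0∞) + 1 / 2 = 1 := ENNReal.add_halves 1
            rw [this, mul_one]
        _ ≤ _ := ih

theorem lam_T (k : ℕ) (σ : List Bool) : lam (T k σ) ≤ (1 / 2) ^ (k + 3) :=
  le_trans le_self_add (lam_T_aux k σ)

theorem length_u (k : ℕ) : (u k).length = k + 1 := by simp [u]

theorem mem_cyl_trans {v w : List Bool} {X : ℕ → Bool} (hv : X ∈ cyl v) (hw : X ∈ cyl w)
    (h : v.length ≤ w.length) : v <+: w := by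
  rw [mem_cyl_iff] at hv hw
  rw [← hv, ← hw]
  simpa using pre_prefix X h

/-- If all candidates are refuted then the good reals outside of the valid cylinders have small
measure. -/
theorem H_small {k N : ℕ} {L : List Bool → ℕ} (hk : IsCode k L) {σ : List Bool}
    (href : ∀ c ∈ cands (k, N, σ), condK k σ c →
        R (c.1, c.2.2.1, c.2.2.2, k) ∨ R (c.2.1, c.2.2.1, c.2.2.2, k)) {e n : ℕ} (he : e ≤ N)
    (hn : n ≤ N) :
    lam {X | (X ∈ cyl (u k) ∧ X ∉ T k σ) ∧ ∀ j, n ≤ j → L (pre X j) = e} ≤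
      2 * (1 / 2) ^ len k N σ := by
  classical
  set H : Set (ℕ → Bool) := {X | (X ∈ cyl (u k) ∧ X ∉ T k σ) ∧ ∀ j, n ≤ j → L (pre X j) = e}
    with hH
  set m := len k N σ with hm
  have hkm : k + 1 ≤ m := by rw [hm, len]; omega
  have hle : ∀ w, H ∩ cyl w ⊆ Gd L w e n := fun w X hX => ⟨hX.2, hX.1.2⟩
  have key : ∀ w w' : List Bool, w.length = m → w'.length = m → encode w < encode w' →
      (1 / 4) ^ m ≤ lam (H ∩ cyl w) → (1 / 4) ^ m ≤ lam (H ∩ cyl w') → False := by
    intro w w' hw hw' hlt h1 h2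
    have hpos : (0 : ℝ≥0∞) < (1 / 4) ^ m := by
      rw [pos_iff_ne_zero]
      exact pow_ne_zero _ (by simp)
    have hne : ∀ w : List Bool, w.length = m → (1 / 4) ^ m ≤ lam (H ∩ cyl w) →
        u k <+: w ∧ ∀ j < w.length + 1, ¬ valid σ k (w.take j) := by
      intro w hw h
      obtain ⟨X, hX⟩ := nonempty_of_measure_ne_zero (lt_of_lt_of_le hpos h).ne'
      refine ⟨mem_cyl_trans hX.1.1.1 hX.2 (by rw [length_u, hw]; exact hkm), fun j _ hv => ?_⟩
      exact hX.1.1.2 ⟨_, hv, cyl_subset (List.take_prefix _ _) hX.2⟩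
    obtain ⟨a1, a2⟩ := hne w hw h1
    obtain ⟨b1, b2⟩ := hne w' hw' h2
    rcases href (w, w', e, n) (mem_cands.2 ⟨hw, hw', he, hn⟩) ⟨a1, b1, hlt, a2, b2⟩ with h | h
    · have h3 := R_lt hk h
      simp only [hw] at h3
      exact absurd (lt_of_le_of_lt ((h1.trans (measure_mono (hle w)))) h3) (lt_irrefl _)
    · have h3 := R_lt hk h
      simp only [hw'] at h3
      exact absurd (lt_of_le_of_lt ((h2.trans (measure_mono (hle w')))) h3) (lt_irrefl _)
  obtain ⟨w0, hw0⟩ : ∃ w0 : List Bool, ∀ w : List Bool, w.length = m →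
      lam (H ∩ cyl w) ≤ (if w = w0 then (1 / 2) ^ m else 0) + (1 / 4) ^ m := by
    by_cases hex : ∃ w0 : List Bool, w0.length = m ∧ (1 / 4) ^ m ≤ lam (H ∩ cyl w0)
    · obtain ⟨w0, h1, h2⟩ := hex
      refine ⟨w0, fun w hw => ?_⟩
      by_cases h3 : w = w0
      · rw [if_pos h3]
        refine le_trans (measure_mono Set.inter_subset_right) ?_
        rw [lam_cyl, hw]
        exact le_self_add
      · rw [if_neg h3, zero_add]
        by_contra h4
        rw [not_le] at h4
        rcases lt_or_gt_of_ne (fun h => h3 (encode_injective h) : encode w ≠ encode w0) with h5 | h5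
        · exact key w w0 hw h1 h5 h4.le h2
        · exact key w0 w h1 hw h5 h2 h4.le
    · push Not at hex
      refine ⟨[], fun w hw => (hex w hw).le.trans le_add_self⟩
  have hcov : H ⊆ ⋃ w ∈ (allStr m).toFinset, H ∩ cyl w := by
    intro X hX
    simp only [Set.mem_iUnion, exists_prop, List.mem_toFinset, Helper227.mem_allStr]
    exact ⟨pre X m, length_pre _ _, hX, by rw [mem_cyl_iff, length_pre]⟩
  calc lam H ≤ ∑ w ∈ (allStr m).toFinset, lam (H ∩ cyl w) :=
        (measure_mono hcov).trans (measure_biUnion_finset_le _ _)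
    _ ≤ ∑ w ∈ (allStr m).toFinset, ((if w = w0 then (1 / 2) ^ m else 0) + (1 / 4) ^ m) := by
        refine Finset.sum_le_sum fun w hw => hw0 w ?_
        rwa [List.mem_toFinset, Helper227.mem_allStr] at hw
    _ ≤ (1 / 2) ^ m + 2 ^ m * (1 / 4) ^ m := by
        rw [Finset.sum_add_distrib]
        refine add_le_add ?_ ?_
        · rw [Finset.sum_ite_eq']
          split_ifs
          · exact le_rfl
          · exact zero_le
        · rw [Finset.sum_const, List.toFinset_card_of_nodup (Helper227.nodup_allStr m),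
            Helper227.length_allStr, nsmul_eq_mul]
          push_cast
          exact le_rfl
    _ = 2 * (1 / 2) ^ m := by
        have h42 : (2 : ℝ≥0∞) * (1 / 4) = 1 / 2 := by
          rw [one_div, one_div, show (4 : ℝ≥0∞) = 2 * 2 by norm_num,
            ENNReal.mul_inv (Or.inl (by norm_num)) (Or.inl (by norm_num)), ← mul_assoc,
            ENNReal.mul_inv_cancel (by norm_num) (by norm_num), one_mul]
        rw [← mul_pow, h42, two_mul]

/-- If all candidates are always refuted then the learner diverges on a random real. -/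
theorem exists_div {k : ℕ} {L : List Bool → ℕ} (hk : IsCode k L)
    (href : ∀ N, ∃ σ : List Bool, ∀ c ∈ cands (k, N, σ), condK k σ c →
        R (c.1, c.2.2.1, c.2.2.2, k) ∨ R (c.2.1, c.2.2.1, c.2.2.2, k)) :
    ∃ X, X ∈ cyl (u k) ∧ MLRandom lam X ∧ ∀ e, ¬ ConvTo L X e := by
  classical
  by_contra hcon
  push Not at hcon
  let G : ℕ → Set (ℕ → Bool) := fun N =>
    {X | X ∈ cyl (u k) ∧ ∃ e ≤ N, ∃ n ≤ N, ∀ j, n ≤ j → L (pre X j) = e}
  have hGm : Monotone G := by
    rintro a b hab X ⟨h1, e, he, n, hn, h2⟩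
    exact ⟨h1, e, he.trans hab, n, hn.trans hab, h2⟩
  have hU : lam (cyl (u k)) ≤ lam (⋃ N, G N) := by
    refine measure_mono_ae ?_
    filter_upwards [ae_random] with X hX hXk
    obtain ⟨e, n, hn⟩ := hcon X hXk hX
    change X ∈ ⋃ N, G N
    rw [Set.mem_iUnion]
    exact ⟨max e n, hXk, e, le_max_left _ _, n, le_max_right _ _, hn⟩
  rw [hGm.measure_iUnion, lam_cyl, length_u] at hU
  have h1 : (1 / 2 : ℝ≥0∞) ^ (k + 2) < (1 / 2) ^ (k + 1) := by
    rw [pow_succ (1 / 2 : ℝ≥0∞) (k + 1)]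
    have h2 : (1 / 2 : ℝ≥0∞) ^ (k + 1) ≠ 0 := pow_ne_zero _ (by simp)
    have h3 : (1 / 2 : ℝ≥0∞) ^ (k + 1) ≠ ⊤ := ENNReal.pow_ne_top (by simp)
    rw [← div_eq_mul_one_div]
    exact ENNReal.half_lt_self h2 h3
  obtain ⟨N, hN⟩ := lt_iSup_iff.1 (lt_of_lt_of_le h1 hU)
  obtain ⟨σ, hσ⟩ := href N
  have h2 : lam (G N) ≤ lam (T k σ) + lam (G N \ T k σ) := by
    refine le_trans (measure_mono ?_) (measure_union_le _ _)
    intro X hX
    by_cases h : X ∈ T k σ
    · exact Or.inl h
    · exact Or.inr ⟨hX, h⟩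
  have h3 : G N \ T k σ ⊆ ⋃ e ∈ Finset.range (N + 1), ⋃ n ∈ Finset.range (N + 1),
      {X | (X ∈ cyl (u k) ∧ X ∉ T k σ) ∧ ∀ j, n ≤ j → L (pre X j) = e} := by
    rintro X ⟨⟨h4, e, he, n, hn, h5⟩, h6⟩
    simp only [Set.mem_iUnion, exists_prop, Finset.mem_range]
    exact ⟨e, by omega, n, by omega, ⟨h4, h6⟩, h5⟩
  have h4 : lam (G N \ T k σ) ≤ (N + 1 : ℕ) * ((N + 1 : ℕ) * (2 * (1 / 2) ^ len k N σ)) := by
    refine (measure_mono h3).trans ((measure_biUnion_finset_le _ _).trans ?_)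
    refine (Finset.sum_le_sum (g := fun _ => ((N + 1 : ℕ) : ℝ≥0∞) *
      (2 * (1 / 2) ^ len k N σ)) fun e he => ?_).trans ?_
    · refine (measure_biUnion_finset_le _ _).trans ?_
      refine (Finset.sum_le_sum (g := fun _ => 2 * (1 / 2 : ℝ≥0∞) ^ len k N σ)
        fun n hn => ?_).trans ?_
      · rw [Finset.mem_range] at he hn
        exact H_small hk hσ (by omega) (by omega)
      · rw [Finset.sum_const, Finset.card_range, nsmul_eq_mul]
    · rw [Finset.sum_const, Finset.card_range, nsmul_eq_mul]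
  have h5 : ((N + 1 : ℕ) : ℝ≥0∞) * ((N + 1 : ℕ) * (2 * (1 / 2) ^ len k N σ)) ≤
      (1 / 2) ^ (k + 3) := by
    have h6 : ((N + 1 : ℕ) : ℝ≥0∞) ≤ 2 ^ N := by
      have : N + 1 ≤ 2 ^ N := Nat.succ_le_of_lt Nat.lt_two_pow_self
      exact_mod_cast this
    calc ((N + 1 : ℕ) : ℝ≥0∞) * ((N + 1 : ℕ) * (2 * (1 / 2) ^ len k N σ))
        ≤ 2 ^ N * (2 ^ N * (2 * (1 / 2) ^ len k N σ)) := by gcongr
      _ = (1 / 2) ^ (σ.length + k + 9) := by
          rw [show len k N σ = (N + (N + 1)) + (σ.length + k + 9) by rw [len]; ring, pow_add,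
            ← mul_assoc, ← mul_assoc, ← mul_assoc, ← pow_add, ← pow_succ,
            show N + N + 1 = N + (N + 1) by ring, ← mul_pow]
          have : (2 : ℝ≥0∞) * (1 / 2) = 1 := by
            rw [one_div]
            exact ENNReal.mul_inv_cancel (by norm_num) (by norm_num)
          rw [this, one_pow, one_mul]
      _ ≤ _ := pow_le_pow_right_of_le_one' (by simp) (by omega)
  have h7 : lam (G N) ≤ (1 / 2) ^ (k + 3) + (1 / 2) ^ (k + 3) :=
    h2.trans (add_le_add (lam_T k σ) (h4.trans h5))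
  have h8 : (1 / 2 : ℝ≥0∞) ^ (k + 3) + (1 / 2) ^ (k + 3) = (1 / 2) ^ (k + 2) := by
    rw [pow_succ (1 / 2 : ℝ≥0∞) (k + 2), ← mul_add]
    have : (1 / 2 : ℝ≥0∞) + 1 / 2 = 1 := ENNReal.add_halves 1
    rw [this, mul_one]
  rw [h8] at h7
  exact absurd (lt_of_lt_of_le hN h7) (lt_irrefl _)

end Pool.Agent.V7H75.EX
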